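import Pool.Agent.MP_fcd29e_an.H31.Spec3
import Pool.Agent.MP_fcd29e_an.H67.LT

/-!
Removing the residue of the field of distributions.
-/

set_option autoImplicit false

open MeasureTheory Complex Set Filter Topology Metric Pool.Agent.MP_fcd29e_an.H81
  Pool.Agent.MP_fcd29e_an.H31 Pool.Agent.MP_fcd29e_an.H67
open scoped ContDiff ComplexConjugate ENNReal NNReal

namespace Pool.Agent.MP_fcd29e_an.H82

noncomputable section

variable {N : ℕ}

namespace DV2A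

theorem int_test (L : Lv0) {f ψ : E N → ℂ} (hf : L2 (E0 N) f) (hψ : Test (E0 N) ψ) :
    Integrable (fun z => f z * ψ z) ∧ ∫ z in E0 N, f z * ψ z = ∫ z, f z * ψ z :=
  ((L.t1 N _ isOpen_E0 zero_notMem_E0).1 f hf).2.2.1 _ hψ.1.continuous hψ.2.1 hψ.2.2

theorem test_rad (L : Lv0) {κ : ℝ → ℝ} (hκ : Kap κ) (l : Fin N) : Test (E0 N) (rad κ l) := by
  have h := ((L.t1 N _ isOpen_E0 zero_notMem_E0).2.2.2.1 _ ((L.t3.2 N).1 κ hκ).1).1 _
    (contDiff_coord (n := ∞) l).contDiffOn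
  have e : rad κ l = fun z : E N => z l * (κ (‖z‖ ^ 2) : ℂ) := funext fun z => mul_comm _ _
  rw [e]
  exact h

theorem test_dz (L : Lv0) {ψ : E N → ℂ} (hψ : Test (E0 N) ψ) (j : Fin N) :
    Test (E0 N) (dz j ψ) ∧ Test (E0 N) (dzb j ψ) :=
  ((L.t1 N _ isOpen_E0 zero_notMem_E0).2.2.2.1 _ hψ).2.2.1 j

theorem dz_rad {κ : ℝ → ℝ} (hκ : Kap κ) (l i : Fin N) (z : E N) :
    dz i (rad κ l) z = ((deriv κ (‖z‖ ^ 2) : ℝ) : ℂ) * (conj (z i) * z l) +
      (κ (‖z‖ ^ 2) : ℂ) * (if i = l then 1 else 0) := by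
  have hr : DifferentiableAt ℝ (fun w : E N => ‖w‖ ^ 2) z :=
    (contDiff_norm_sq ℝ (n := 1)).differentiable (by simp) z
  have hk : HasDerivAt κ (deriv κ (‖z‖ ^ 2)) (‖z‖ ^ 2) :=
    (hκ.smooth.differentiable (by simp) _).hasDerivAt
  have h1 := dz_comp_real i hr hk
  rw [dz_normSq] at h1
  have h2 : DifferentiableAt ℝ (cx fun w : E N => κ (‖w‖ ^ 2)) z :=
    ContDiffAt.da (contDiffAt_cx (hκ.smooth.comp (contDiff_norm_sq ℝ)).contDiffAt)
  have h3 := dz_mul i h2 (ContDiffAt.da (contDiff_coord l).contDiffAt)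
  rw [h1, dz_coord] at h3
  exact h3.trans (by ring)

theorem rot (L : Lv0) (hN : 1 ≤ N) {a b : ℤ} {g : E N → ℂ} (hg : Hom (E0 N) a b g) (h : a ≠ b)
    (κ : ℝ → ℝ) : ∫ z, (κ (‖z‖ ^ 2) : ℂ) * g z = 0 :=
  (L.t2 N a b).2 g κ (Or.inr hN) (((L.t2 N a b).1 _ isOpen_E0 cone_E0).1 _ hg) h

theorem lam_zero (L : Lv0) (hN : 1 ≤ N) {κ : ℝ → ℝ} (hκ : Kap κ) {m : ℤ} (hm : m ≠ -N)
    {A : Fin N → E N → ℂ} {B : Fin N → Fin N → E N → ℂ}
    (hA : ∀ l, Hom (E0 N) m (1 - N) (A l))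
    (hB : ∀ l i, L2 (E0 N) (B l i) ∧ Hom (E0 N) (m + 1) (1 - N) (B l i)) :
    Lam A B (rad κ) = 0 := by
  have h1 : ∀ l, ∫ z, A l z * rad κ l z = 0 := by
    intro l
    have := rot L hN (hom_mul (hom_coord l) (hA l) (a'' := m + 1) (b'' := 1 - N) (by ring)
      (by ring)) (fun h => hm (by linarith)) κ
    rw [← this]
    refine integral_congr_ae (ae_of_all _ fun z => ?_)
    simp only [rad]
    ring
  have h2 : ∀ l i, ∫ z, B l i z * dz i (rad κ l) z = 0 := by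
    intro l i
    have e1 := rot L hN (hom_mul (hom_mul (hom_conj i) (hom_coord l) (a'' := 1) (b'' := 1)
      (by ring) (by ring)) (hB l i).2 (a'' := m + 2) (b'' := 2 - N) (by ring) (by ring))
      (fun h => hm (by linarith)) (deriv κ)
    have e2 := rot L hN (hB l i).2 (fun h => hm (by linarith)) κ
    have i1 := (int_test L (hB l i).1 (test_dz L (test_rad L hκ l) i).1).1
    have i2 := (int_test L (hB l i).1 ((L.t3.2 N).1 κ hκ).1).1
    have e3 : ∀ z : E N, ((deriv κ (‖z‖ ^ 2) : ℝ) : ℂ) * (conj (z i) * z l * B l i z) =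
        B l i z * dz i (rad κ l) z -
          (if i = l then 1 else 0 : ℂ) * (B l i z * (κ (‖z‖ ^ 2) : ℂ)) := by
      intro z
      rw [dz_rad hκ]
      ring
    simp only [e3] at e1
    rw [integral_sub i1 (i2.const_mul _), integral_const_mul] at e1
    simp only [mul_comm (B l i _) ((κ _ : ℝ) : ℂ), e2, mul_zero, sub_zero] at e1
    exact e1
  simp only [Lam, h1, h2, Finset.sum_const_zero, add_zero]

theorem lam_sub (L : Lv0) {A T g : Fin N → E N → ℂ} (B : Fin N → Fin N → E N → ℂ) (c : ℂ)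
    (hA : ∀ l, L2 (E0 N) (A l)) (hT : ∀ l, L2 (E0 N) (T l)) (hg : ∀ l, Test (E0 N) (g l)) :
    Lam (fun l z => A l z - c * T l z) B g = Lam A B g - c * ∑ l, ∫ z, T l z * g l z := by
  have h : ∀ l, ∫ z, (A l z - c * T l z) * g l z =
      (∫ z, A l z * g l z) - c * ∫ z, T l z * g l z := by
    intro l
    rw [← integral_const_mul, ← integral_sub (int_test L (hA l) (hg l)).1
      ((int_test L (hT l) (hg l)).1.const_mul c)]
    refine integral_congr_ae (ae_of_all _ fun z => ?_)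
    simp only
    ring
  simp only [Lam, h, Finset.sum_sub_distrib, Finset.mul_sum]
  ring

/-- The real density of the correction. -/
def th (ρ : E N → ℝ) (s : ℝ) (z : E N) : ℝ := max (ρ z) 0 ^ (s + 1) * ((‖z‖ ^ 2)⁻¹) ^ N

theorem th_eq (ρ : E N → ℝ) (s : ℝ) (z : E N) :
    (th ρ s z : ℂ) = ((max (ρ z) 0 ^ (s + 1) : ℝ) : ℂ) * ((‖z‖ ^ 2 : ℝ) : ℂ)⁻¹ ^ N := by
  simp only [th]
  push_cast
  rfl

theorem cont_th {ρ : E N → ℝ} (hρ : Dom ρ) {s : ℝ} (hs : 0 ≤ s) :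
    ContinuousOn (fun z => (th ρ s z : ℂ)) (E0 N) := by
  simp only [th_eq]
  refine (continuous_ofReal.comp_continuousOn ?_).mul (smooth_inv.continuousOn.pow N)
  exact (Real.continuous_rpow_const (by linarith)).comp_continuousOn
    (hρ.smooth.continuousOn.sup continuousOn_const)

theorem hom_th {ρ : E N → ℝ} (hρ : Dom ρ) (s : ℝ) :
    Hom (E0 N) (-N) (-N) fun z => (th ρ s z : ℂ) := by
  simp only [th_eq]
  have h1 : Hom (E0 N) 0 0 fun z => ((max (ρ z) 0 ^ (s + 1) : ℝ) : ℂ) := by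
    intro c hc z _
    simp [hρ.inv c hc]
  exact hom_mul h1 (hom_pow hom_inv N) (by ring) (by ring)

theorem l2_cont (L : Lv0) {U : Set (E N)} (hU : IsOpen U) (h0 : (0 : E N) ∉ U) {f : E N → ℂ}
    (hf : ContinuousOn f (E0 N)) : L2 U f := (L.t1 N U hU h0).2.2.1 f hf

theorem cont_T {ρ : E N → ℝ} (hρ : Dom ρ) {s : ℝ} (hs : 0 ≤ s) (l : Fin N) :
    ContinuousOn (fun z : E N => conj (z l) * (th ρ s z : ℂ)) (E0 N) :=
  (smooth_conj l).continuous.continuousOn.mul (cont_th hρ hs)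

theorem euler (L : Lv0) {ρ : E N → ℝ} (hρ : Dom ρ) {s : ℝ} (hs : 0 ≤ s) {ψ : E N → ℂ}
    (hψ : Test (E0 N) ψ) : ∑ l, ∫ z : E N, conj (z l) * (th ρ s z : ℂ) * dzb l ψ z = 0 := by
  have T := (L.t2 N (-N) (-N)).1 _ isOpen_E0 cone_E0
  have key := T.2.2.2.1 _ (l2_cont L isOpen_E0 zero_notMem_E0 (cont_th hρ hs))
    (T.1 _ (hom_th hρ s)) ψ hψ
  have h := fun l => int_test L (l2_cont L isOpen_E0 zero_notMem_E0 (cont_T hρ hs l))
    (test_dz L hψ l).2
  simp only [← fun l => (h l).2]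
  rw [← integral_finsetSum _ fun l _ => (h l).1.integrableOn]
  have e : ∀ z : E N, ∑ l, conj (z l) * (th ρ s z : ℂ) * dzb l ψ z =
      (th ρ s z : ℂ) * ∑ l, conj (z l) * dzb l ψ z := by
    intro z
    rw [Finset.mul_sum]
    exact Finset.sum_congr rfl fun l _ => by ring
  simp only [e]
  rw [key]
  simp

theorem mass (L : Lv0) {ρ : E N → ℝ} (hρ : Dom ρ) {s : ℝ} (hs : 0 ≤ s) {κ : ℝ → ℝ}
    (hκ : Kap κ) : ∑ l, ∫ z : E N, conj (z l) * (th ρ s z : ℂ) * rad κ l z ≠ 0 := by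
  have h := fun l => (int_test L (l2_cont L isOpen_E0 zero_notMem_E0 (cont_T hρ hs l))
    (test_rad L hκ l)).1
  rw [← integral_finsetSum _ fun l _ => h l]
  have hi := integrable_finsetSum Finset.univ fun l _ => h l
  set r : E N → ℝ := fun z => th ρ s z * κ (‖z‖ ^ 2) * ‖z‖ ^ 2 with hr
  have e : ∀ z : E N, ∑ l, conj (z l) * (th ρ s z : ℂ) * rad κ l z = (r z : ℂ) := by
    intro z
    simp only [hr, rad]
    rw [ofReal_mul, norm_sq_eq, Finset.mul_sum]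
    refine Finset.sum_congr rfl fun l _ => ?_
    push_cast
    ring
  simp only [e] at hi ⊢
  have hi' : Integrable r := by simpa using hi.re
  have hn : 0 ≤ r := fun z =>
    mul_nonneg (mul_nonneg (mul_nonneg (Real.rpow_nonneg (le_max_right _ _) _) (by positivity))
      (hκ.nonneg _)) (by positivity)
  rw [integral_complex_ofReal]
  refine ofReal_ne_zero.2 (ne_of_gt ((integral_pos_iff_support_of_nonneg hn hi').2 ?_))
  have hc2 : Continuous fun z : E N => ‖z‖ ^ 2 := by fun_prop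
  have ho : IsOpen (Op ρ ∩ (fun z : E N => ‖z‖ ^ 2) ⁻¹' Ioo 1 4) :=
    (L.c1 N ρ hρ).2.1.inter (isOpen_Ioo.preimage hc2)
  refine lt_of_lt_of_le (ho.measure_pos volume ?_) (measure_mono ?_)
  · obtain ⟨z₀, hz₀, hp⟩ := hρ.proper
    have hz : 0 < ‖z₀‖ := norm_pos_iff.2 hz₀
    set c : ℝ := 3 / 2 / ‖z₀‖ with hc'
    have hcp : 0 < c := by positivity
    have hnorm : ‖(c : ℂ) • z₀‖ = 3 / 2 := by
      rw [norm_smul, Complex.norm_real, Real.norm_of_nonneg hcp.le, hc']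
      field_simp
    refine ⟨(c : ℂ) • z₀, ⟨?_, ?_⟩, ?_⟩
    · rw [← norm_pos_iff, hnorm]; norm_num
    · rw [hρ.inv _ (ofReal_ne_zero.2 hcp.ne')]; exact hp
    · simp only [mem_preimage, hnorm]; norm_num
  · rintro z ⟨⟨h0, h1⟩, h2, h3⟩
    have h4 := hκ.pos _ h2 h3
    have h5 : 0 < ‖z‖ := norm_pos_iff.2 h0
    have h6 : 0 < max (ρ z) 0 := lt_max_of_lt_left h1
    simp only [Function.mem_support, hr, th]
    positivity

theorem wls (L : Lv0) {ρ : E N → ℝ} (hρ : Dom ρ) {s : ℝ} (hs : 0 ≤ s) {g : E N → ℂ}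
    (hg : WLs ρ s g) (c : ℂ) (l : Fin N) :
    WLs ρ s fun z => g z - c * (conj (z l) * (th ρ s z : ℂ)) := by
  have hm : Measurable ρ := (L.c1 N ρ hρ).2.2.2.2.1
  have ho := (L.c1 N ρ hρ).2.1
  have h0 : (0 : E N) ∉ Op ρ := fun h => h.1 rfl
  refine ⟨hg.1.sub (AEStronglyMeasurable.const_mul ?_ c), hg.2.1.mono fun z hz h => ?_, ?_⟩
  · refine (smooth_conj l).continuous.aestronglyMeasurable.mul ?_
    refine (measurable_ofReal.comp ?_).aestronglyMeasurable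
    exact ((hm.max measurable_const).pow_const _).mul
      ((measurable_norm.pow_const 2).inv.pow_const N)
  · have : s + 1 ≠ 0 := by linarith
    simp [hz h, th, max_eq_right h, Real.zero_rpow this]
  · have hc : ContinuousOn (fun z : E N =>
        c * (conj (z l) * ((ρ z : ℂ) * ((‖z‖ ^ 2 : ℝ) : ℂ)⁻¹ ^ N))) (E0 N) :=
      continuousOn_const.mul ((smooth_conj l).continuous.continuousOn.mul
        ((continuous_ofReal.comp_continuousOn hρ.smooth.continuousOn).mul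
          (smooth_inv.continuousOn.pow N)))
    have h1 := (((L.t1 N _ ho h0).1 _ hg.2.2).2.2.2.1 _ (l2_cont L ho h0 hc)).2
    refine ((L.t1 N _ ho h0).1 _ h1).2.2.2.2.2.1 _ (ae_of_all _ fun z hz => ?_)
    have h2 : ((ρ z ^ s : ℝ) : ℂ) ≠ 0 := ofReal_ne_zero.2 (Real.rpow_pos_of_pos hz.2 s).ne'
    simp only
    rw [th_eq, max_eq_left hz.2.le, Real.rpow_add_one hz.2.ne', ofReal_mul]
    field_simp

end DV2A

open DV2A in
theorem dv2 (L : Lv2) : StmtDV2 := by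
  intro N hN ρ hρ κ hκ s hs m A B hA hB
  have l2 := (L.sbs N s hs).2.2.2.2.2 ρ hρ
  by_cases hm : m = -N
  swap
  · exact ⟨A, hA, fun _ _ => rfl, lam_zero L.toLv0 hN hκ hm (fun l => (hA l).2)
      fun l i => ⟨l2 _ (hB l i).1, (hB l i).2⟩⟩
  have hM := mass L.toLv0 hρ hs hκ
  have hT := fun l => l2_cont L.toLv0 isOpen_E0 zero_notMem_E0 (cont_T hρ hs l)
  refine ⟨fun l z => A l z - Lam A B (rad κ) /
      (∑ l, ∫ z : E N, conj (z l) * (th ρ s z : ℂ) * rad κ l z) * (conj (z l) * (th ρ s z : ℂ)),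
    fun l => ⟨wls L.toLv0 hρ hs (hA l).1 _ l, hom_sub (hA l).2 ?_⟩, fun ψ hψ => ?_, ?_⟩
  · exact hom_mul (hom_const _) (hom_mul (hom_conj l) (hom_th hρ s) (a'' := m) (b'' := 1 - N)
      (by rw [hm]; ring) (by ring)) (zero_add _).symm (zero_add _).symm
  · rw [lam_sub L.toLv0 B _ (fun l => l2 _ (hA l).1) hT fun l => (test_dz L.toLv0 hψ l).2,
      euler L.toLv0 hρ hs hψ, mul_zero, sub_zero]
  · rw [lam_sub L.toLv0 B _ (fun l => l2 _ (hA l).1) hT fun l => test_rad L.toLv0 hκ l,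
      div_mul_cancel₀ _ hM, sub_self]

end

end Pool.Agent.MP_fcd29e_an.H82

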