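import Pool.Agent.MP_fcd29e_an.H11.CS

/-! The product of two rotations. -/

set_option autoImplicit false

open Complex
open scoped ComplexConjugate

namespace Pool.Agent.MP_fcd29e_an.H82

open Pool.Agent.MP_fcd29e_an.H11

namespace CPR

/-- coefficient of `ep` -/
noncomputable def cX (c S s l l' x a b : ℂ) : ℂ :=
  (s - 1) / 2 * (-(x * S) + ((c + 1) * l * a + (c - 1) * l' * b) / 2)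

/-- coefficient of `em` -/
noncomputable def cY (c S s l l' x a b : ℂ) : ℂ :=
  (s - 1) / 2 * (-(x * S) + ((c - 1) * l * a + (c + 1) * l' * b) / 2)

theorem alg (c S s si l li x a b X Y x' a' b' X' Y' : ℂ) (hs : s * si = 1) (hl : l * li = 1)
    (hS : c ^ 2 - S ^ 2 = 1) (h : (1 - l ^ 2) * (s + 1) = c * (s - 1) * (1 + l ^ 2))
    (hX : X = cX c S s (-li) (-l) x a b) (hY : Y = cY c S si (-li) (-l) x a b)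
    (hx : x' = x + S * (X + Y)) (ha : a' = a + -l * ((c + 1) * X + (c - 1) * Y))
    (hb : b' = b + -li * ((c - 1) * X + (c + 1) * Y))
    (hX' : X' = cX c S s l li x' a' b') (hY' : Y' = cY c S si l li x' a' b') :
    x' + S * (X' + Y') = x ∧
    -l * ((c + 1) * X + (c - 1) * Y) + li * ((c + 1) * X' + (c - 1) * Y') = (li ^ 4 - 1) * a ∧
    -li * ((c - 1) * X + (c + 1) * Y) + l * ((c - 1) * X' + (c + 1) * Y') = (l ^ 4 - 1) * b := by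
  subst hX' hY' hx ha hb hX hY
  unfold cX cY
  refine ⟨?_, ?_, ?_⟩
  · linear_combination ((1/8)*x + (-1/8)*li^2*x + (-1/8)*l^2*x + (1/8)*l^2*li^2*x + (-1/8)*si*x + (1/8)*si*li^2*x + (1/8)*si*l^2*x + (-1/8)*si*l^2*li^2*x + (-1/16)*S*li*b + (-1/16)*S*li*a + (-3/16)*S*li^3*a + (-3/16)*S*l*b + (1/16)*S*l^2*li*b + (1/16)*S*l^2*li*a + (3/16)*S*l^2*li^3*a + (3/16)*S*l^3*b + (-1/16)*S*si*li*b + (-1/16)*S*si*li*a + (1/16)*S*si*li^3*a + (1/16)*S*si*l*b + (1/16)*S*si*l^2*li*b + (1/16)*S*si*l^2*li*a + (-1/16)*S*si*l^2*li^3*a + (-1/16)*S*si*l^3*b + (-1/4)*S^2*li^2*x + (-1/4)*S^2*l^2*x + (1/2)*S^4*x + (-1/2)*c*x + (-1/4)*c*li^2*x + (1/4)*c*l^2*x + (1/2)*c*l^2*li^2*x + (1/4)*c*si*x + (-1/4)*c*si*l^2*li^2*x + (3/16)*c*S*li*b + (-1/16)*c*S*li*a + (1/16)*c*S*li^3*a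 + (3/16)*c*S*l*b + (-1/8)*c*S*l*li^2*b + (-1/16)*c*S*l^2*li*b + (1/16)*c*S*l^2*li*a + (3/16)*c*S*l^2*li^3*a + (1/16)*c*S*l^3*b + (-1/16)*c*S*si*li*b + (3/16)*c*S*si*li*a + (-1/16)*c*S*si*li^3*a + (-1/16)*c*S*si*l*b + (3/16)*c*S*si*l^2*li*b + (-1/16)*c*S*si*l^2*li*a + (-1/16)*c*S*si*l^2*li^3*a + (-1/16)*c*S*si*l^3*b + (1/4)*c*S^3*li*a + (1/4)*c*S^3*l*b + (1/4)*c^2*x + (1/2)*c^2*li^2*x + (1/2)*c^2*l^2*x + (1/4)*c^2*l^2*li^2*x + (-1/4)*c^2*si*li^2*x + (-1/4)*c^2*si*l^2*x + (1/16)*c^2*S*li*b + (5/16)*c^2*S*li*a + (3/16)*c^2*S*li^3*a + (3/16)*c^2*S*l*b + (-5/16)*c^2*S*l^2*li*b + (-1/16)*c^2*S*l^2*li*a + (-3/16)*c^2*S*l^2*li^3*a + (-3/16)*c^2*S*l^3*b + (1/16)*c^2*S*si*li*b + (-3/16)*c^2*S*si*li*a + (-1/16)*c^2*S*si*li^3*a + (-1/16)*c^2*S*si*l*b + (3/16)*c^2*S*si*l^2*li*b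 + (-1/16)*c^2*S*si*l^2*li*a + (1/16)*c^2*S*si*l^2*li^3*a + (1/16)*c^2*S*si*l^3*b + (1/4)*c^2*S^2*li^2*x + (1/4)*c^2*S^2*l^2*x + (1/2)*c^3*x + (1/4)*c^3*li^2*x + (-1/4)*c^3*l^2*x + (-1/2)*c^3*l^2*li^2*x + (-1/4)*c^3*si*x + (1/4)*c^3*si*l^2*li^2*x + (-3/16)*c^3*S*li*b + (-3/16)*c^3*S*li*a + (-1/16)*c^3*S*li^3*a + (-3/16)*c^3*S*l*b + (1/8)*c^3*S*l*li^2*b + (-3/16)*c^3*S*l^2*li*b + (-1/16)*c^3*S*l^2*li*a + (-3/16)*c^3*S*l^2*li^3*a + (-1/16)*c^3*S*l^3*b + (1/16)*c^3*S*si*li*b + (1/16)*c^3*S*si*li*a + (1/16)*c^3*S*si*li^3*a + (1/16)*c^3*S*si*l*b + (1/16)*c^3*S*si*l^2*li*b + (1/16)*c^3*S*si*l^2*li*a + (1/16)*c^3*S*si*l^2*li^3*a + (1/16)*c^3*S*si*l^3*b + (-3/8)*c^4*x + (-3/8)*c^4*li^2*x + (-3/8)*c^4*l^2*x + (-3/8)*c^4*l^2*li^2*x + (1/8)*c^4*si*x + (1/8)*c^4*si*li^2*x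 + (1/8)*c^4*si*l^2*x + (1/8)*c^4*si*l^2*li^2*x) * hs + ((1/4)*x + (1/4)*l*li*x + (-1/8)*si^2*x + (-1/8)*si^2*l*li*x + (-1/8)*s^2*x + (-1/8)*s^2*l*li*x + (-1/8)*S*si*li*b + (1/8)*S*si*li*a + (1/8)*S*si*l*b + (1/4)*S*si*l*a + (1/8)*S*si*l*li^2*a + (1/16)*S*si^2*li*b + (-1/16)*S*si^2*li*a + (1/16)*S*si^2*l*b + (-1/16)*S*si^2*l*li^2*a + (1/8)*S*s*li*b + (-1/8)*S*s*li*a + (-1/8)*S*s*l*b + (-1/4)*S*s*l*a + (-1/8)*S*s*l*li^2*a + (-1/16)*S*s^2*li*b + (1/16)*S*s^2*li*a + (-1/16)*S*s^2*l*b + (1/16)*S*s^2*l*li^2*a + (1/8)*c*S*li*b + (3/8)*c*S*li*a + (-1/8)*c*S*l*b + (1/2)*c*S*l*a + (3/8)*c*S*l*li^2*a + (-1/4)*c*S*si*li*b + (-1/4)*c*S*si*li*a + (-1/4)*c*S*si*l*a + (-1/4)*c*S*si*l*li^2*a + (3/16)*c*S*si^2*li*b + (1/16)*c*S*si^2*li*a + (1/16)*c*S*si^2*l*b + (1/16)*c*S*si^2*l*li^2*a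 + (-1/4)*c*S*s*li*b + (-1/4)*c*S*s*li*a + (-1/4)*c*S*s*l*a + (-1/4)*c*S*s*l*li^2*a + (3/16)*c*S*s^2*li*b + (1/16)*c*S*s^2*li*a + (1/16)*c*S*s^2*l*b + (1/16)*c*S*s^2*l*li^2*a + (1/2)*c^2*x + (1/2)*c^2*l*li*x + (-1/2)*c^2*si*x + (-1/2)*c^2*si*l*li*x + (1/4)*c^2*si^2*x + (1/4)*c^2*si^2*l*li*x + (-1/2)*c^2*s*x + (-1/2)*c^2*s*l*li*x + (1/4)*c^2*s^2*x + (1/4)*c^2*s^2*l*li*x + (-3/8)*c^2*S*si*li*b + (-1/8)*c^2*S*si*li*a + (1/8)*c^2*S*si*l*b + (-1/8)*c^2*S*si*l*li^2*a + (3/16)*c^2*S*si^2*li*b + (1/16)*c^2*S*si^2*li*a + (-1/16)*c^2*S*si^2*l*b + (1/16)*c^2*S*si^2*l*li^2*a + (3/8)*c^2*S*s*li*b + (1/8)*c^2*S*s*li*a + (-1/8)*c^2*S*s*l*b + (1/8)*c^2*S*s*l*li^2*a + (-3/16)*c^2*S*s^2*li*b + (-1/16)*c^2*S*s^2*li*a + (1/16)*c^2*S*s^2*l*b + (-1/16)*c^2*S*s^2*l*li^2*a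 + (3/8)*c^3*S*li*b + (-3/8)*c^3*S*li*a + (-3/8)*c^3*S*l*b + (-3/8)*c^3*S*l*li^2*a + (-1/4)*c^3*S*si*li*b + (1/4)*c^3*S*si*li*a + (1/4)*c^3*S*si*l*b + (1/4)*c^3*S*si*l*li^2*a + (1/16)*c^3*S*si^2*li*b + (-1/16)*c^3*S*si^2*li*a + (-1/16)*c^3*S*si^2*l*b + (-1/16)*c^3*S*si^2*l*li^2*a + (-1/4)*c^3*S*s*li*b + (1/4)*c^3*S*s*li*a + (1/4)*c^3*S*s*l*b + (1/4)*c^3*S*s*l*li^2*a + (1/16)*c^3*S*s^2*li*b + (-1/16)*c^3*S*s^2*li*a + (-1/16)*c^3*S*s^2*l*b + (-1/16)*c^3*S*s^2*l*li^2*a + (-3/4)*c^4*x + (-3/4)*c^4*l*li*x + (1/2)*c^4*si*x + (1/2)*c^4*si*l*li*x + (-1/8)*c^4*si^2*x + (-1/8)*c^4*si^2*l*li*x + (1/2)*c^4*s*x + (1/2)*c^4*s*l*li*x + (-1/8)*c^4*s^2*x + (-1/8)*c^4*s^2*l*li*x) * hl + ((-1/2)*x + (1/4)*li^2*x + (1/4)*l^2*x + (1/4)*si^2*x + (-1/8)*si^2*li^2*x + (-1/8)*si^2*l^2*x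 + (1/4)*s^2*x + (-1/8)*s^2*li^2*x + (-1/8)*s^2*l^2*x + (-1/4)*S*si*li*a + (1/4)*S*si*l*b + (1/8)*S*si^2*li*a + (-1/8)*S*si^2*l*b + (1/4)*S*s*li*a + (-1/4)*S*s*l*b + (-1/8)*S*s^2*li*a + (1/8)*S*s^2*l*b + (-3/2)*S^2*x + 1*S^2*si*x + (-1/4)*S^2*si^2*x + 1*S^2*s*x + (-1/4)*S^2*s^2*x + (1/2)*c*si*li^2*x + (-1/2)*c*si*l^2*x + (-1/4)*c*si^2*li^2*x + (1/4)*c*si^2*l^2*x + (-1/2)*c*s*li^2*x + (1/2)*c*s*l^2*x + (1/4)*c*s^2*li^2*x + (-1/4)*c*s^2*l^2*x + (-3/4)*c*S*li*a + (-3/4)*c*S*l*b + (1/2)*c*S*si*li*a + (1/2)*c*S*si*l*b + (-1/8)*c*S*si^2*li*a + (-1/8)*c*S*si^2*l*b + (1/2)*c*S*s*li*a + (1/2)*c*S*s*l*b + (-1/8)*c*S*s^2*li*a + (-1/8)*c*S*s^2*l*b + (-3/2)*c^2*x + (-3/4)*c^2*li^2*x + (-3/4)*c^2*l^2*x + 1*c^2*si*x + (1/2)*c^2*si*li^2*x + (1/2)*c^2*si*l^2*x + (-1/4)*c^2*si^2*x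 + (-1/8)*c^2*si^2*li^2*x + (-1/8)*c^2*si^2*l^2*x + 1*c^2*s*x + (1/2)*c^2*s*li^2*x + (1/2)*c^2*s*l^2*x + (-1/4)*c^2*s^2*x + (-1/8)*c^2*s^2*li^2*x + (-1/8)*c^2*s^2*l^2*x) * hS + ((-1/8)*x + (1/8)*li^2*x + (-1/8)*si*x + (1/8)*si*li^2*x + (1/8)*si^2*x + (-1/8)*si^2*li^2*x + (1/8)*s*x + (-1/8)*s*li^2*x + (-1/16)*S*li*b + (-1/16)*S*li*a + (-3/16)*S*li^3*a + (-3/16)*S*l*b + (1/16)*S*si*li*b + (1/16)*S*si*li*a + (3/16)*S*si*li^3*a + (3/16)*S*si*l*b + (1/16)*S*si^2*li*b + (1/16)*S*si^2*li*a + (-1/16)*S*si^2*li^3*a + (-1/16)*S*si^2*l*b + (-1/16)*S*s*li*b + (-1/16)*S*s*li*a + (1/16)*S*s*li^3*a + (1/16)*S*s*l*b + (-3/8)*c*x + (-3/8)*c*li^2*x + (3/8)*c*si*x + (3/8)*c*si*li^2*x + (-1/8)*c*si^2*x + (-1/8)*c*si^2*li^2*x + (1/8)*c*s*x + (1/8)*c*s*li^2*x + (-1/8)*c*S*li*b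 + (1/8)*c*S*li*a + (-1/8)*c*S*si*li*b + (1/8)*c*S*si*li*a + (1/8)*c*S*si^2*li*b + (-1/8)*c*S*si^2*li*a + (1/8)*c*S*s*li*b + (-1/8)*c*S*s*li*a + (1/8)*c^2*x + (-1/8)*c^2*li^2*x + (1/8)*c^2*si*x + (-1/8)*c^2*si*li^2*x + (-1/8)*c^2*si^2*x + (1/8)*c^2*si^2*li^2*x + (-1/8)*c^2*s*x + (1/8)*c^2*s*li^2*x + (3/16)*c^2*S*li*b + (3/16)*c^2*S*li*a + (3/16)*c^2*S*li^3*a + (3/16)*c^2*S*l*b + (-3/16)*c^2*S*si*li*b + (-3/16)*c^2*S*si*li*a + (-3/16)*c^2*S*si*li^3*a + (-3/16)*c^2*S*si*l*b + (1/16)*c^2*S*si^2*li*b + (1/16)*c^2*S*si^2*li*a + (1/16)*c^2*S*si^2*li^3*a + (1/16)*c^2*S*si^2*l*b + (-1/16)*c^2*S*s*li*b + (-1/16)*c^2*S*s*li*a + (-1/16)*c^2*S*s*li^3*a + (-1/16)*c^2*S*s*l*b + (3/8)*c^3*x + (3/8)*c^3*li^2*x + (-3/8)*c^3*si*x + (-3/8)*c^3*si*li^2*x + (1/8)*c^3*si^2*x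 + (1/8)*c^3*si^2*li^2*x + (-1/8)*c^3*s*x + (-1/8)*c^3*s*li^2*x) * h
  · linear_combination ((1/16)*b + (-1/16)*li^2*b + (3/16)*li^2*a + (7/16)*li^4*a + (-1/8)*l*li^3*b + (-1/16)*l^2*b + (1/16)*l^2*li^2*b + (-1/16)*l^2*li^2*a + (-5/16)*l^2*li^4*a + (-1/8)*l^3*li*b + (-1/16)*si*b + (1/16)*si*li^2*b + (1/16)*si*li^2*a + (-1/16)*si*li^4*a + (1/16)*si*l^2*b + (-1/16)*si*l^2*li^2*b + (-1/16)*si*l^2*li^2*a + (1/16)*si*l^2*li^4*a + (-1/8)*S*li*x + (-3/8)*S*li^3*x + (1/8)*S*l^2*li*x + (3/8)*S*l^2*li^3*x + (-1/8)*S*si*li*x + (1/8)*S*si*li^3*x + (1/8)*S*si*l^2*li*x + (-1/8)*S*si*l^2*li^3*x + (-1/4)*S^2*li^2*a + (1/4)*S^2*l*li*b + (-1/4)*c*b + (-1/8)*c*li^2*b + (-3/8)*c*li^2*a + (-3/4)*c*li^4*a + (1/8)*c*l^2*b + (1/4)*c*l^2*li^2*b + (1/8)*c*l^2*li^4*a + (1/8)*c*si*b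 + (-1/4)*c*si*li^2*a + (1/8)*c*si*li^4*a + (-1/8)*c*si*l^2*li^2*b + (1/8)*c*si*l^2*li^2*a + (-1/8)*c*S*li*x + (1/8)*c*S*li^3*x + (1/8)*c*S*l^2*li*x + (3/8)*c*S*l^2*li^3*x + (3/8)*c*S*si*li*x + (-1/8)*c*S*si*li^3*x + (-1/8)*c*S*si*l^2*li*x + (-1/8)*c*S*si*l^2*li^3*x + (1/2)*c*S^3*li*x + (1/8)*c^2*b + (1/4)*c^2*li^2*b + (1/8)*c^2*li^4*a + (1/4)*c^2*l^2*b + (1/8)*c^2*l^2*li^2*b + (1/8)*c^2*l^2*li^2*a + (1/2)*c^2*l^2*li^4*a + (-1/8)*c^2*si*li^2*b + (3/8)*c^2*si*li^2*a + (-1/8)*c^2*si*l^2*b + (-1/8)*c^2*si*l^2*li^4*a + (5/8)*c^2*S*li*x + (3/8)*c^2*S*li^3*x + (-1/8)*c^2*S*l^2*li*x + (-3/8)*c^2*S*l^2*li^3*x + (-3/8)*c^2*S*si*li*x + (-1/8)*c^2*S*si*li^3*x + (-1/8)*c^2*S*si*l^2*li*x + (1/8)*c^2*S*si*l^2*li^3*x + (1/4)*c^2*S^2*li^2*a + (1/4)*c^2*S^2*l*li*b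 + (1/4)*c^3*b + (1/8)*c^3*li^2*b + (3/8)*c^3*li^2*a + (1/4)*c^3*li^4*a + (-1/8)*c^3*l^2*b + (-1/4)*c^3*l^2*li^2*b + (-1/8)*c^3*l^2*li^4*a + (-1/8)*c^3*si*b + (-1/4)*c^3*si*li^2*a + (-1/8)*c^3*si*li^4*a + (1/8)*c^3*si*l^2*li^2*b + (-1/8)*c^3*si*l^2*li^2*a + (-3/8)*c^3*S*li*x + (-1/8)*c^3*S*li^3*x + (-1/8)*c^3*S*l^2*li*x + (-3/8)*c^3*S*l^2*li^3*x + (1/8)*c^3*S*si*li*x + (1/8)*c^3*S*si*li^3*x + (1/8)*c^3*S*si*l^2*li*x + (1/8)*c^3*S*si*l^2*li^3*x + (-3/16)*c^4*b + (-3/16)*c^4*li^2*b + (-3/16)*c^4*li^2*a + (-1/16)*c^4*li^4*a + (1/8)*c^4*l*li^3*b + (-3/16)*c^4*l^2*b + (-3/16)*c^4*l^2*li^2*b + (-1/16)*c^4*l^2*li^2*a + (-3/16)*c^4*l^2*li^4*a + (1/8)*c^4*l^3*li*b + (1/16)*c^4*si*b + (1/16)*c^4*si*li^2*b + (1/16)*c^4*si*li^2*a + (1/16)*c^4*si*li^4*a + (1/16)*c^4*si*l^2*b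 + (1/16)*c^4*si*l^2*li^2*b + (1/16)*c^4*si*l^2*li^2*a + (1/16)*c^4*si*l^2*li^4*a) * hs + ((1/8)*b + (-1)*a + (-3/8)*li^2*b + (-5/8)*li^2*a + (1/8)*l*li*b + (-5/8)*l*li^3*a + (-3/8)*l^2*b + (1/4)*si*li^2*b + (-1/4)*si*li^2*a + (-1/2)*si*l*li*a + (-1/4)*si*l*li^3*a + (1/4)*si*l^2*b + (-1/16)*si^2*b + (-1/16)*si^2*li^2*b + (1/16)*si^2*li^2*a + (-1/16)*si^2*l*li*b + (1/16)*si^2*l*li^3*a + (-1/16)*si^2*l^2*b + (1/4)*s*li^2*b + (-1/4)*s*li^2*a + (-1/2)*s*l*li*a + (-1/4)*s*l*li^3*a + (1/4)*s*l^2*b + (-1/16)*s^2*b + (-1/16)*s^2*li^2*b + (1/16)*s^2*li^2*a + (-1/16)*s^2*l*li*b + (1/16)*s^2*l*li^3*a + (-1/16)*s^2*l^2*b + (1/4)*S*si*li*x + (1/2)*S*si*l*x + (1/4)*S*si*l*li^2*x + (-1/8)*S*si^2*li*x + (-1/8)*S*si^2*l*li^2*x + (-1/4)*S*s*li*x + (-1/2)*S*s*l*x +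 (-1/4)*S*s*l*li^2*x + (1/8)*S*s^2*li*x + (1/8)*S*s^2*l*li^2*x + (1/4)*S^2*b + (-1/8)*S^2*si^2*b + (-1/8)*S^2*s^2*b + (1/4)*c*si*li^2*b + (3/4)*c*si*li^2*a + 1*c*si*l*li*a + (3/4)*c*si*l*li^3*a + (-1/4)*c*si*l^2*b + (-1/8)*c*si^2*li^2*b + (-1/8)*c*si^2*li^2*a + (-1/8)*c*si^2*l*li^3*a + (1/8)*c*si^2*l^2*b + (-1/4)*c*s*li^2*b + (-3/4)*c*s*li^2*a + (-1)*c*s*l*li*a + (-3/4)*c*s*l*li^3*a + (1/4)*c*s*l^2*b + (1/8)*c*s^2*li^2*b + (1/8)*c*s^2*li^2*a + (1/8)*c*s^2*l*li^3*a + (-1/8)*c*s^2*l^2*b + (3/4)*c*S*li*x + 1*c*S*l*x + (3/4)*c*S*l*li^2*x + (-1/2)*c*S*si*li*x + (-1/2)*c*S*si*l*x + (-1/2)*c*S*si*l*li^2*x + (1/8)*c*S*si^2*li*x + (1/8)*c*S*si^2*l*li^2*x + (-1/2)*c*S*s*li*x + (-1/2)*c*S*s*l*x + (-1/2)*c*S*s*l*li^2*x + (1/8)*c*S*s^2*li*x + (1/8)*c*S*s^2*l*li^2*x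 + (1/4)*c^2*b + 1*c^2*li^2*a + (1/4)*c^2*l*li*b + 1*c^2*l*li*a + 1*c^2*l*li^3*a + (-1/4)*c^2*si*b + (-1/2)*c^2*si*li^2*a + (-1/4)*c^2*si*l*li*b + (-1/2)*c^2*si*l*li*a + (-1/2)*c^2*si*l*li^3*a + (1/8)*c^2*si^2*b + (1/8)*c^2*si^2*l*li*b + (-1/4)*c^2*s*b + (-1/2)*c^2*s*li^2*a + (-1/4)*c^2*s*l*li*b + (-1/2)*c^2*s*l*li*a + (-1/2)*c^2*s*l*li^3*a + (1/8)*c^2*s^2*b + (1/8)*c^2*s^2*l*li*b + (-1/4)*c^2*S*si*li*x + (-1/4)*c^2*S*si*l*li^2*x + (1/8)*c^2*S*si^2*li*x + (1/8)*c^2*S*si^2*l*li^2*x + (1/4)*c^2*S*s*li*x + (1/4)*c^2*S*s*l*li^2*x + (-1/8)*c^2*S*s^2*li*x + (-1/8)*c^2*S*s^2*l*li^2*x + (3/4)*c^2*S^2*b + (-1/2)*c^2*S^2*si*b + (1/8)*c^2*S^2*si^2*b + (-1/2)*c^2*S^2*s*b + (1/8)*c^2*S^2*s^2*b + (-1/4)*c^3*si*li^2*b + (-1/4)*c^3*si*li^2*a + (-1/4)*c^3*si*l*li^3*a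 + (1/4)*c^3*si*l^2*b + (1/8)*c^3*si^2*li^2*b + (1/8)*c^3*si^2*li^2*a + (1/8)*c^3*si^2*l*li^3*a + (-1/8)*c^3*si^2*l^2*b + (1/4)*c^3*s*li^2*b + (1/4)*c^3*s*li^2*a + (1/4)*c^3*s*l*li^3*a + (-1/4)*c^3*s*l^2*b + (-1/8)*c^3*s^2*li^2*b + (-1/8)*c^3*s^2*li^2*a + (-1/8)*c^3*s^2*l*li^3*a + (1/8)*c^3*s^2*l^2*b + (-3/4)*c^3*S*li*x + (-3/4)*c^3*S*l*li^2*x + (1/2)*c^3*S*si*li*x + (1/2)*c^3*S*si*l*li^2*x + (-1/8)*c^3*S*si^2*li*x + (-1/8)*c^3*S*si^2*l*li^2*x + (1/2)*c^3*S*s*li*x + (1/2)*c^3*S*s*l*li^2*x + (-1/8)*c^3*S*s^2*li*x + (-1/8)*c^3*S*s^2*l*li^2*x + (-3/8)*c^4*b + (3/8)*c^4*li^2*b + (-3/8)*c^4*li^2*a + (-3/8)*c^4*l*li*b + (-3/8)*c^4*l*li^3*a + (3/8)*c^4*l^2*b + (1/4)*c^4*si*b + (-1/4)*c^4*si*li^2*b + (1/4)*c^4*si*li^2*a + (1/4)*c^4*si*l*li*b + (1/4)*c^4*si*l*li^3*a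 + (-1/4)*c^4*si*l^2*b + (-1/16)*c^4*si^2*b + (1/16)*c^4*si^2*li^2*b + (-1/16)*c^4*si^2*li^2*a + (-1/16)*c^4*si^2*l*li*b + (-1/16)*c^4*si^2*l*li^3*a + (1/16)*c^4*si^2*l^2*b + (1/4)*c^4*s*b + (-1/4)*c^4*s*li^2*b + (1/4)*c^4*s*li^2*a + (1/4)*c^4*s*l*li*b + (1/4)*c^4*s*l*li^3*a + (-1/4)*c^4*s*l^2*b + (-1/16)*c^4*s^2*b + (1/16)*c^4*s^2*li^2*b + (-1/16)*c^4*s^2*li^2*a + (-1/16)*c^4*s^2*l*li*b + (-1/16)*c^4*s^2*l*li^3*a + (1/16)*c^4*s^2*l^2*b) * hl + ((-1/4)*b + (1/4)*li^2*a + (1/8)*si^2*b + (-1/8)*si^2*li^2*a + (1/8)*s^2*b + (-1/8)*s^2*li^2*a + (-1/2)*S*si*li*x + (1/4)*S*si^2*li*x + (1/2)*S*s*li*x + (-1/4)*S*s^2*li*x + (-1/2)*c*si*li^2*a + (1/4)*c*si^2*li^2*a + (1/2)*c*s*li^2*a + (-1/4)*c*s^2*li^2*a + (-3/2)*c*S*li*x + 1*c*S*si*li*x + (-1/4)*c*S*si^2*li*x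 + 1*c*S*s*li*x + (-1/4)*c*S*s^2*li*x + (-3/4)*c^2*b + (-3/4)*c^2*li^2*a + (1/2)*c^2*si*b + (1/2)*c^2*si*li^2*a + (-1/8)*c^2*si^2*b + (-1/8)*c^2*si^2*li^2*a + (1/2)*c^2*s*b + (1/2)*c^2*s*li^2*a + (-1/8)*c^2*s^2*b + (-1/8)*c^2*s^2*li^2*a) * hS + ((-1/16)*b + (1/16)*li^2*b + (-3/16)*li^2*a + (-5/16)*li^4*a + (-1/16)*si*b + (1/16)*si*li^2*b + (-3/16)*si*li^2*a + (-5/16)*si*li^4*a + (1/16)*si^2*b + (-1/16)*si^2*li^2*b + (-1/16)*si^2*li^2*a + (1/16)*si^2*li^4*a + (1/16)*s*b + (-1/16)*s*li^2*b + (-1/16)*s*li^2*a + (1/16)*s*li^4*a + (-1/8)*S*li*x + (-3/8)*S*li^3*x + (1/8)*S*si*li*x + (3/8)*S*si*li^3*x + (1/8)*S*si^2*li*x + (-1/8)*S*si^2*li^3*x + (-1/8)*S*s*li*x + (1/8)*S*s*li^3*x + (-3/16)*c*b + (-3/16)*c*li^2*b + (-3/16)*c*li^2*a + (-7/16)*c*li^4*a + (3/16)*c*si*b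 + (3/16)*c*si*li^2*b + (3/16)*c*si*li^2*a + (7/16)*c*si*li^4*a + (-1/16)*c*si^2*b + (-1/16)*c*si^2*li^2*b + (3/16)*c*si^2*li^2*a + (-1/16)*c*si^2*li^4*a + (1/16)*c*s*b + (1/16)*c*s*li^2*b + (-3/16)*c*s*li^2*a + (1/16)*c*s*li^4*a + (1/4)*c*S*li*x + (1/4)*c*S*si*li*x + (-1/4)*c*S*si^2*li*x + (-1/4)*c*S*s*li*x + (1/16)*c^2*b + (-1/16)*c^2*li^2*b + (3/16)*c^2*li^2*a + (1/16)*c^2*li^4*a + (1/16)*c^2*si*b + (-1/16)*c^2*si*li^2*b + (3/16)*c^2*si*li^2*a + (1/16)*c^2*si*li^4*a + (-1/16)*c^2*si^2*b + (1/16)*c^2*si^2*li^2*b + (-3/16)*c^2*si^2*li^2*a + (-1/16)*c^2*si^2*li^4*a + (-1/16)*c^2*s*b + (1/16)*c^2*s*li^2*b + (-3/16)*c^2*s*li^2*a + (-1/16)*c^2*s*li^4*a + (3/8)*c^2*S*li*x + (3/8)*c^2*S*li^3*x + (-3/8)*c^2*S*si*li*x + (-3/8)*c^2*S*si*li^3*x + (1/8)*c^2*S*si^2*li*x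 + (1/8)*c^2*S*si^2*li^3*x + (-1/8)*c^2*S*s*li*x + (-1/8)*c^2*S*s*li^3*x + (3/16)*c^3*b + (3/16)*c^3*li^2*b + (3/16)*c^3*li^2*a + (3/16)*c^3*li^4*a + (-3/16)*c^3*si*b + (-3/16)*c^3*si*li^2*b + (-3/16)*c^3*si*li^2*a + (-3/16)*c^3*si*li^4*a + (1/16)*c^3*si^2*b + (1/16)*c^3*si^2*li^2*b + (1/16)*c^3*si^2*li^2*a + (1/16)*c^3*si^2*li^4*a + (-1/16)*c^3*s*b + (-1/16)*c^3*s*li^2*b + (-1/16)*c^3*s*li^2*a + (-1/16)*c^3*s*li^4*a) * h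
  · linear_combination ((-3/16)*b + (1/16)*a + (-1/16)*li^2*a + (-1/8)*l*li^3*a + (-1/8)*l^2*b + (-1/16)*l^2*a + (1/8)*l^2*li^2*b + (1/16)*l^2*li^2*a + (-1/8)*l^3*li*a + (7/16)*l^4*b + (-1/16)*si*b + (-1/16)*si*a + (1/16)*si*li^2*a + (1/8)*si*l^2*b + (1/16)*si*l^2*a + (-1/16)*si*l^2*li^2*a + (-1/16)*si*l^4*b + (-1/8)*S*li*x + (-3/8)*S*l*x + (1/8)*S*l^2*li*x + (3/8)*S*l^3*x + (-1/8)*S*si*li*x + (1/8)*S*si*l*x + (1/8)*S*si*l^2*li*x + (-1/8)*S*si*l^3*x + (1/4)*S^2*l*li*a + (-1/4)*S^2*l^2*b + (-1/4)*c*a + (-1/8)*c*li^2*a + (1/4)*c*l^2*b + (1/8)*c*l^2*a + (1/4)*c*l^2*li^2*a + (3/4)*c*l^4*b + (-1/8)*c*si*b + (1/8)*c*si*a + (1/4)*c*si*l^2*b + (-1/8)*c*si*l^2*li^2*a + (-1/8)*c*si*l^4*b + (3/8)*c*S*li*x + (3/8)*c*S*l*x + (-1/4)*c*S*l*li^2*x + (-1/8)*c*S*l^2*li*x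 + (1/8)*c*S*l^3*x + (-1/8)*c*S*si*li*x + (-1/8)*c*S*si*l*x + (3/8)*c*S*si*l^2*li*x + (-1/8)*c*S*si*l^3*x + (1/2)*c*S^3*l*x + (3/8)*c^2*b + (1/8)*c^2*a + (1/4)*c^2*li^2*a + (1/2)*c^2*l^2*b + (1/4)*c^2*l^2*a + (-1/4)*c^2*l^2*li^2*b + (1/8)*c^2*l^2*li^2*a + (1/8)*c^2*l^4*b + (-1/8)*c^2*si*li^2*a + (1/4)*c^2*si*l^2*b + (-1/8)*c^2*si*l^2*a + (1/8)*c^2*S*li*x + (3/8)*c^2*S*l*x + (-5/8)*c^2*S*l^2*li*x + (-3/8)*c^2*S*l^3*x + (1/8)*c^2*S*si*li*x + (-1/8)*c^2*S*si*l*x + (3/8)*c^2*S*si*l^2*li*x + (1/8)*c^2*S*si*l^3*x + (1/4)*c^2*S^2*l*li*a + (1/4)*c^2*S^2*l^2*b + (1/4)*c^3*a + (1/8)*c^3*li^2*a + (-1/4)*c^3*l^2*b + (-1/8)*c^3*l^2*a + (-1/4)*c^3*l^2*li^2*a + (-1/4)*c^3*l^4*b + (1/8)*c^3*si*b + (-1/8)*c^3*si*a + (1/4)*c^3*si*l^2*b + (1/8)*c^3*si*l^2*li^2*a + (1/8)*c^3*si*l^4*b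 + (-3/8)*c^3*S*li*x + (-3/8)*c^3*S*l*x + (1/4)*c^3*S*l*li^2*x + (-3/8)*c^3*S*l^2*li*x + (-1/8)*c^3*S*l^3*x + (1/8)*c^3*S*si*li*x + (1/8)*c^3*S*si*l*x + (1/8)*c^3*S*si*l^2*li*x + (1/8)*c^3*S*si*l^3*x + (-3/16)*c^4*b + (-3/16)*c^4*a + (-3/16)*c^4*li^2*a + (1/8)*c^4*l*li^3*a + (-3/8)*c^4*l^2*b + (-3/16)*c^4*l^2*a + (1/8)*c^4*l^2*li^2*b + (-3/16)*c^4*l^2*li^2*a + (1/8)*c^4*l^3*li*a + (-1/16)*c^4*l^4*b + (1/16)*c^4*si*b + (1/16)*c^4*si*a + (1/16)*c^4*si*li^2*a + (1/8)*c^4*si*l^2*b + (1/16)*c^4*si*l^2*a + (1/16)*c^4*si*l^2*li^2*a + (1/16)*c^4*si*l^4*b) * hs + ((-5/8)*b + (1/8)*a + (-3/8)*li^2*a + (3/8)*l*li*b + (1/8)*l*li*a + (-3/8)*l^2*a + (1/4)*si*b + (1/4)*si*li^2*a + (-1/4)*si*l*li*b + (1/4)*si*l^2*a + (1/16)*si^2*b + (-1/16)*si^2*a + (-1/16)*si^2*li^2*a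 + (1/16)*si^2*l*li*b + (-1/16)*si^2*l*li*a + (-1/16)*si^2*l^2*a + (1/4)*s*b + (1/4)*s*li^2*a + (-1/4)*s*l*li*b + (1/4)*s*l^2*a + (1/16)*s^2*b + (-1/16)*s^2*a + (-1/16)*s^2*li^2*a + (1/16)*s^2*l*li*b + (-1/16)*s^2*l*li*a + (-1/16)*s^2*l^2*a + (-1/4)*S*si*li*x + (1/4)*S*si*l*x + (1/8)*S*si^2*li*x + (1/8)*S*si^2*l*x + (1/4)*S*s*li*x + (-1/4)*S*s*l*x + (-1/8)*S*s^2*li*x + (-1/8)*S*s^2*l*x + (1/4)*S^2*a + (-1/8)*S^2*si^2*a + (-1/8)*S^2*s^2*a + (1/2)*c*si*b + (1/4)*c*si*li^2*a + (-1/2)*c*si*l*li*b + (-1/4)*c*si*l^2*a + (1/4)*c*si^2*b + (-1/8)*c*si^2*li^2*a + (1/4)*c*si^2*l*li*b + (1/8)*c*si^2*l^2*a + (-1/2)*c*s*b + (-1/4)*c*s*li^2*a + (1/2)*c*s*l*li*b + (1/4)*c*s*l^2*a + (-1/4)*c*s^2*b + (1/8)*c*s^2*li^2*a + (-1/4)*c*s^2*l*li*b + (-1/8)*c*s^2*l^2*a + (1/4)*c*S*li*x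 + (-1/4)*c*S*l*x + (-1/2)*c*S*si*li*x + (3/8)*c*S*si^2*li*x + (1/8)*c*S*si^2*l*x + (-1/2)*c*S*s*li*x + (3/8)*c*S*s^2*li*x + (1/8)*c*S*s^2*l*x + (-3/4)*c^2*b + (1/4)*c^2*a + (1/4)*c^2*l*li*b + (1/4)*c^2*l*li*a + (-1/4)*c^2*si*a + (-1/2)*c^2*si*l*li*b + (-1/4)*c^2*si*l*li*a + (3/8)*c^2*si^2*b + (1/8)*c^2*si^2*a + (3/8)*c^2*si^2*l*li*b + (1/8)*c^2*si^2*l*li*a + (-1/4)*c^2*s*a + (-1/2)*c^2*s*l*li*b + (-1/4)*c^2*s*l*li*a + (3/8)*c^2*s^2*b + (1/8)*c^2*s^2*a + (3/8)*c^2*s^2*l*li*b + (1/8)*c^2*s^2*l*li*a + (-3/4)*c^2*S*si*li*x + (1/4)*c^2*S*si*l*x + (3/8)*c^2*S*si^2*li*x + (-1/8)*c^2*S*si^2*l*x + (3/4)*c^2*S*s*li*x + (-1/4)*c^2*S*s*l*x + (-3/8)*c^2*S*s^2*li*x + (1/8)*c^2*S*s^2*l*x + (3/4)*c^2*S^2*a + (-1/2)*c^2*S^2*si*a + (1/8)*c^2*S^2*si^2*a + (-1/2)*c^2*S^2*s*a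 + (1/8)*c^2*S^2*s^2*a + (-1/2)*c^3*si*b + (-1/4)*c^3*si*li^2*a + (-1/2)*c^3*si*l*li*b + (1/4)*c^3*si*l^2*a + (1/4)*c^3*si^2*b + (1/8)*c^3*si^2*li^2*a + (1/4)*c^3*si^2*l*li*b + (-1/8)*c^3*si^2*l^2*a + (1/2)*c^3*s*b + (1/4)*c^3*s*li^2*a + (1/2)*c^3*s*l*li*b + (-1/4)*c^3*s*l^2*a + (-1/4)*c^3*s^2*b + (-1/8)*c^3*s^2*li^2*a + (-1/4)*c^3*s^2*l*li*b + (1/8)*c^3*s^2*l^2*a + (3/4)*c^3*S*li*x + (-3/4)*c^3*S*l*x + (-1/2)*c^3*S*si*li*x + (1/2)*c^3*S*si*l*x + (1/8)*c^3*S*si^2*li*x + (-1/8)*c^3*S*si^2*l*x + (-1/2)*c^3*S*s*li*x + (1/2)*c^3*S*s*l*x + (1/8)*c^3*S*s^2*li*x + (-1/8)*c^3*S*s^2*l*x + (3/8)*c^4*b + (-3/8)*c^4*a + (3/8)*c^4*li^2*a + (3/8)*c^4*l*li*b + (-3/8)*c^4*l*li*a + (3/8)*c^4*l^2*a + (-1/4)*c^4*si*b + (1/4)*c^4*si*a + (-1/4)*c^4*si*li^2*a + (-1/4)*c^4*si*l*li*b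 + (1/4)*c^4*si*l*li*a + (-1/4)*c^4*si*l^2*a + (1/16)*c^4*si^2*b + (-1/16)*c^4*si^2*a + (1/16)*c^4*si^2*li^2*a + (1/16)*c^4*si^2*l*li*b + (-1/16)*c^4*si^2*l*li*a + (1/16)*c^4*si^2*l^2*a + (-1/4)*c^4*s*b + (1/4)*c^4*s*a + (-1/4)*c^4*s*li^2*a + (-1/4)*c^4*s*l*li*b + (1/4)*c^4*s*l*li*a + (-1/4)*c^4*s*l^2*a + (1/16)*c^4*s^2*b + (-1/16)*c^4*s^2*a + (1/16)*c^4*s^2*li^2*a + (1/16)*c^4*s^2*l*li*b + (-1/16)*c^4*s^2*l*li*a + (1/16)*c^4*s^2*l^2*a) * hl + ((-1/4)*a + (1/4)*l^2*b + (1/8)*si^2*a + (-1/8)*si^2*l^2*b + (1/8)*s^2*a + (-1/8)*s^2*l^2*b + (1/2)*S*si*l*x + (-1/4)*S*si^2*l*x + (-1/2)*S*s*l*x + (1/4)*S*s^2*l*x + (1/2)*c*si*l^2*b + (-1/4)*c*si^2*l^2*b + (-1/2)*c*s*l^2*b + (1/4)*c*s^2*l^2*b + (-3/2)*c*S*l*x + 1*c*S*si*l*x + (-1/4)*c*S*si^2*l*x + 1*c*S*s*l*x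 + (-1/4)*c*S*s^2*l*x + (-3/4)*c^2*a + (-3/4)*c^2*l^2*b + (1/2)*c^2*si*a + (1/2)*c^2*si*l^2*b + (-1/8)*c^2*si^2*a + (-1/8)*c^2*si^2*l^2*b + (1/2)*c^2*s*a + (1/2)*c^2*s*l^2*b + (-1/8)*c^2*s^2*a + (-1/8)*c^2*s^2*l^2*b) * hS + ((3/16)*b + (-1/16)*a + (1/16)*li^2*a + (5/16)*l^2*b + (3/16)*si*b + (-1/16)*si*a + (1/16)*si*li^2*a + (5/16)*si*l^2*b + (1/16)*si^2*b + (1/16)*si^2*a + (-1/16)*si^2*li^2*a + (-1/16)*si^2*l^2*b + (1/16)*s*b + (1/16)*s*a + (-1/16)*s*li^2*a + (-1/16)*s*l^2*b + (-1/8)*S*li*x + (-3/8)*S*l*x + (1/8)*S*si*li*x + (3/8)*S*si*l*x + (1/8)*S*si^2*li*x + (-1/8)*S*si^2*l*x + (-1/8)*S*s*li*x + (1/8)*S*s*l*x + (-3/16)*c*b + (-3/16)*c*a + (-3/16)*c*li^2*a + (-7/16)*c*l^2*b + (3/16)*c*si*b + (3/16)*c*si*a + (3/16)*c*si*li^2*a + (7/16)*c*si*l^2*b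 + (3/16)*c*si^2*b + (-1/16)*c*si^2*a + (-1/16)*c*si^2*li^2*a + (-1/16)*c*si^2*l^2*b + (-3/16)*c*s*b + (1/16)*c*s*a + (1/16)*c*s*li^2*a + (1/16)*c*s*l^2*b + (-1/4)*c*S*li*x + (-1/4)*c*S*si*li*x + (1/4)*c*S*si^2*li*x + (1/4)*c*S*s*li*x + (-3/16)*c^2*b + (1/16)*c^2*a + (-1/16)*c^2*li^2*a + (-1/16)*c^2*l^2*b + (-3/16)*c^2*si*b + (1/16)*c^2*si*a + (-1/16)*c^2*si*li^2*a + (-1/16)*c^2*si*l^2*b + (3/16)*c^2*si^2*b + (-1/16)*c^2*si^2*a + (1/16)*c^2*si^2*li^2*a + (1/16)*c^2*si^2*l^2*b + (3/16)*c^2*s*b + (-1/16)*c^2*s*a + (1/16)*c^2*s*li^2*a + (1/16)*c^2*s*l^2*b + (3/8)*c^2*S*li*x + (3/8)*c^2*S*l*x + (-3/8)*c^2*S*si*li*x + (-3/8)*c^2*S*si*l*x + (1/8)*c^2*S*si^2*li*x + (1/8)*c^2*S*si^2*l*x + (-1/8)*c^2*S*s*li*x + (-1/8)*c^2*S*s*l*x + (3/16)*c^3*b + (3/16)*c^3*a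 + (3/16)*c^3*li^2*a + (3/16)*c^3*l^2*b + (-3/16)*c^3*si*b + (-3/16)*c^3*si*a + (-3/16)*c^3*si*li^2*a + (-3/16)*c^3*si*l^2*b + (1/16)*c^3*si^2*b + (1/16)*c^3*si^2*a + (1/16)*c^3*si^2*li^2*a + (1/16)*c^3*si^2*l^2*b + (-1/16)*c^3*s*b + (-1/16)*c^3*s*a + (-1/16)*c^3*s*li^2*a + (-1/16)*c^3*s*l^2*b) * h

variable {ι : Type} [Fintype ι]

theorem rot_apply (c S : ℝ) (w : ι → ℂ) (l l' s : ℂ) (hl : conj l = l') (v : V ι) :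
    rot c S (l • w) s v =
      (v.1 + S * (cX c S s l l' v.1 (∑ k, v.2.1 k * w k) (∑ k, v.2.2 k * conj (w k)) +
          cY c S s⁻¹ l l' v.1 (∑ k, v.2.1 k * w k) (∑ k, v.2.2 k * conj (w k))),
        fun k => v.2.1 k + l' * (((c : ℂ) + 1) *
          cX c S s l l' v.1 (∑ k, v.2.1 k * w k) (∑ k, v.2.2 k * conj (w k)) + ((c : ℂ) - 1) *
          cY c S s⁻¹ l l' v.1 (∑ k, v.2.1 k * w k) (∑ k, v.2.2 k * conj (w k))) * conj (w k),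
        fun k => v.2.2 k + l * (((c : ℂ) - 1) *
          cX c S s l l' v.1 (∑ k, v.2.1 k * w k) (∑ k, v.2.2 k * conj (w k)) + ((c : ℂ) + 1) *
          cY c S s⁻¹ l l' v.1 (∑ k, v.2.1 k * w k) (∑ k, v.2.2 k * conj (w k))) * w k) := by
  have hp : B v (ep c S (l • w)) = -(v.1 * S) + (((c : ℂ) - 1) * l * (∑ k, v.2.1 k * w k) +
      ((c : ℂ) + 1) * l' * ∑ k, v.2.2 k * conj (w k)) / 2 := by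
    simp only [B, ep, Pi.smul_apply, smul_eq_mul, map_mul, hl, Finset.mul_sum,
      ← Finset.sum_add_distrib]
    congr 2
    exact Finset.sum_congr rfl fun k _ => by ring
  have hm : B v (em c S (l • w)) = -(v.1 * S) + (((c : ℂ) + 1) * l * (∑ k, v.2.1 k * w k) +
      ((c : ℂ) - 1) * l' * ∑ k, v.2.2 k * conj (w k)) / 2 := by
    simp only [B, H11.em, Pi.smul_apply, smul_eq_mul, map_mul, hl, Finset.mul_sum,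
      ← Finset.sum_add_distrib]
    congr 2
    exact Finset.sum_congr rfl fun k _ => by ring
  have h1 : rot c S (l • w) s v = v - ((1 / 2 : ℂ) * B v (em c S (l • w))) • ep c S (l • w) -
      ((1 / 2 : ℂ) * B v (ep c S (l • w))) • em c S (l • w) +
      s • (((1 / 2 : ℂ) * B v (em c S (l • w))) • ep c S (l • w)) +
      s⁻¹ • (((1 / 2 : ℂ) * B v (ep c S (l • w))) • em c S (l • w)) := rfl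
  rw [h1, hp, hm]
  generalize (∑ k, v.2.1 k * w k) = α
  generalize (∑ k, v.2.2 k * conj (w k)) = β
  refine Prod.ext ?_ (Prod.ext (funext fun k => ?_) (funext fun k => ?_))
  · simp only [ep, H11.em, cX, cY, Prod.fst_add, Prod.fst_sub, Prod.smul_fst, smul_eq_mul]
    ring
  · simp only [ep, H11.em, cX, cY, Prod.fst_add, Prod.fst_sub, Prod.smul_fst, Prod.snd_add,
      Prod.snd_sub, Prod.smul_snd, smul_eq_mul, Pi.add_apply, Pi.sub_apply, Pi.smul_apply, map_mul,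
      hl]
    ring
  · simp only [ep, H11.em, cX, cY, Prod.snd_add,
      Prod.snd_sub, Prod.smul_snd, smul_eq_mul, Pi.add_apply, Pi.sub_apply, Pi.smul_apply]
    ring

end CPR

theorem spr (hGR : SGR) : SPR := by
  intro ι _ c S w a l hax ha hl h
  have _ := hGR
  have ha0 : a ≠ 0 := by rintro rfl; simp at ha
  have hl0 : l ≠ 0 := by rintro rfl; simp at hl
  have hcl : conj l = l⁻¹ := (Complex.inv_eq_conj hl).symm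
  have hcl' : conj (-l⁻¹) = -l := by rw [map_neg, map_inv₀, hcl, inv_inv]
  have hw : ∑ k, conj (w k) * w k = 1 := by
    have h1 : ((nsq w : ℝ) : ℂ) = 1 := by rw [hax.unit]; simp
    rw [← h1, nsq]
    push_cast
    exact Finset.sum_congr rfl fun k _ => by rw [Complex.conj_mul']
  have hw' : ∑ k, w k * conj (w k) = 1 := by
    rw [← hw]; exact Finset.sum_congr rfl fun k _ => mul_comm _ _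
  have hS : (c : ℂ) ^ 2 - (S : ℂ) ^ 2 = 1 := by exact_mod_cast hax.hyp
  refine ContinuousLinearMap.ext fun v => ?_
  have e1 : rot 1 0 w (l⁻¹ ^ 4) v = rot 1 0 ((1 : ℂ) • w) (l⁻¹ ^ 4) v := by rw [one_smul]
  rw [e1, ← neg_smul, mul_apply_eq_comp, CPR.rot_apply c S w (-l⁻¹) (-l) _ hcl',
    CPR.rot_apply c S w l l⁻¹ _ hcl, CPR.rot_apply 1 0 w 1 1 _ (map_one _)]
  have s1 : ∀ (p : ι → ℂ) (t : ℂ), ∑ k, (p k + t * conj (w k)) * w k = ∑ k, p k * w k + t := by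
    intro p t
    simp only [add_mul, Finset.sum_add_distrib, mul_assoc, ← Finset.mul_sum, hw, mul_one]
  have s2 : ∀ (p : ι → ℂ) (t : ℂ),
      ∑ k, (p k + t * w k) * conj (w k) = ∑ k, p k * conj (w k) + t := by
    intro p t
    simp only [add_mul, Finset.sum_add_distrib, mul_assoc, ← Finset.mul_sum, hw', mul_one]
  simp only [s1, s2]
  generalize (∑ k, v.2.1 k * w k) = α
  generalize (∑ k, v.2.2 k * conj (w k)) = β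
  obtain ⟨h1, h2, h3⟩ := CPR.alg c S (a ^ 2) (a ^ 2)⁻¹ l l⁻¹ v.1 α β _ _ _ _ _ _ _
    (mul_inv_cancel₀ (pow_ne_zero 2 ha0)) (mul_inv_cancel₀ hl0) hS h rfl rfl rfl rfl rfl rfl rfl
  refine Prod.ext ?_ (Prod.ext (funext fun k => ?_) (funext fun k => ?_))
  · simpa using h1
  · dsimp only
    rw [add_assoc, ← add_mul, h2]
    simp only [CPR.cX, CPR.cY]
    push_cast
    ring
  · dsimp only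
    rw [add_assoc, ← add_mul, h3, inv_pow, inv_inv]
    simp only [CPR.cX, CPR.cY]
    push_cast
    ring

end Pool.Agent.MP_fcd29e_an.H82
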