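import Pool.Agent.MP_fcd29e_an.H81.Spec2

/-!
Either a weight function exists, or there is a minimal set without weight function.
-/

set_option autoImplicit false

open Pool.Agent.MP_fcd29e_an.H81 MeasureTheory Complex Set Filter Topology Metric
open scoped ContDiff ComplexConjugate ENNReal NNReal

namespace Pool.Agent.MP_fcd29e_an.H82

variable {N : ℕ} {ρ : E N → ℝ}

theorem d0_reg (h : Dom ρ) {z : E N} (hz : z ≠ 0) (h0 : ρ z = 0) : z ∈ Reg ρ := ⟨hz, h.reg z hz h0⟩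

theorem d0_si (h : Dom ρ) : SI ρ ρ := ⟨h.smooth.mono fun _ hz => hz.1, h.inv⟩

theorem d0_cont (pf : StmtPF) (h : Dom ρ) {φ : E N → ℝ} (hφ : SI ρ φ) :
    ContinuousOn (trH ρ φ) (Reg ρ) := by
  obtain ⟨ho, -, -, -, h5, -, -⟩ := (pf N).2.2.2 ρ h
  intro z hz
  exact (h5 z hz φ (hφ.1.contDiffAt (ho.mem_nhds hz))).2.2.1.continuousAt.continuousWithinAt

theorem d0_unit {z : E N} (hz : z ≠ 0) : ‖((‖z‖⁻¹ : ℝ) : ℂ) • z‖ = 1 := by
  rw [norm_smul, Complex.norm_real, norm_inv, norm_norm, inv_mul_cancel₀ (norm_ne_zero_iff.2 hz)]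

theorem d0_ne {z : E N} (hz : z ≠ 0) : ((‖z‖⁻¹ : ℝ) : ℂ) ≠ 0 := by
  exact_mod_cast inv_ne_zero (norm_ne_zero_iff.2 hz)

theorem d0_scale (pf : StmtPF) (h : Dom ρ) {φ : E N → ℝ} (hφ : SI ρ φ) {z : E N} (hz : z ∈ Reg ρ)
    (hp : 0 < trH ρ φ (((‖z‖⁻¹ : ℝ) : ℂ) • z)) : 0 < trH ρ φ z := by
  obtain ⟨-, -, -, -, -, h6, -⟩ := (pf N).2.2.2 ρ h
  rw [h6 φ hφ _ (d0_ne hz.1) z hz] at hp
  by_contra hn
  exact absurd hp (not_lt.2 (mul_nonpos_of_nonneg_of_nonpos (by positivity) (not_lt.1 hn)))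

theorem d0_nonempty {K : Set (E N)} (h : NoPhi ρ K) : K.Nonempty := by
  by_contra hK
  exact h ⟨fun _ => 0, ⟨contDiffOn_const, fun _ _ _ => rfl⟩, fun z hz => (hK ⟨z, hz⟩).elim⟩

theorem d0_phi (pf : StmtPF) (h : Dom ρ) {φ : E N → ℝ} (hφ : SI ρ φ)
    (hp : ∀ z, z ≠ 0 → ρ z = 0 → trH ρ ρ z = 0 → 0 < trH ρ φ z) : ∃ ψ, PHI ρ ψ := by
  obtain ⟨ho, -, -, -, h5, -, h7⟩ := (pf N).2.2.2 ρ h
  have hsub : sphere (0 : E N) 1 ⊆ {0}ᶜ := by
    intro z hz h0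
    rw [mem_singleton_iff.1 h0] at hz
    simp at hz
  have hM : IsCompact (sphere (0 : E N) 1 ∩ ρ ⁻¹' {0}) :=
    (isCompact_sphere 0 1).of_isClosed_subset
      ((h.smooth.continuousOn.mono hsub).preimage_isClosed_of_isClosed isClosed_sphere
        isClosed_singleton) inter_subset_left
  let O : ℕ → Set (E N) := fun n => Reg ρ ∩ (fun z => trH ρ φ z + n * trH ρ ρ z) ⁻¹' Ioi 0
  have hO : ∀ n, IsOpen (O n) := fun n =>
    ((d0_cont pf h hφ).add (continuousOn_const.mul (d0_cont pf h (d0_si h)))).isOpen_inter_preimage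
      ho isOpen_Ioi
  obtain ⟨t, ht⟩ := hM.elim_finite_subcover O hO (by
    rintro z ⟨hz, h0⟩
    have hz0 : z ≠ 0 := hsub hz
    obtain ⟨hr, hn, -⟩ := h7 z hz0 h0
    rcases hn.eq_or_lt with h1 | h1
    · exact mem_iUnion.2 ⟨0, hr, by simpa using hp z hz0 h0 h1.symm⟩
    · obtain ⟨n, hn⟩ := exists_nat_gt (-trH ρ φ z / trH ρ ρ z)
      rw [div_lt_iff₀ h1] at hn
      exact mem_iUnion.2 ⟨n, hr, by simp only [mem_preimage, mem_Ioi]; linarith⟩)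
  obtain ⟨A, hA⟩ := t.bddAbove
  have hψ : SI ρ fun y => 1 * φ y + A * ρ y :=
    ⟨(contDiffOn_const.mul hφ.1).add (contDiffOn_const.mul (d0_si h).1),
      fun c hc z => by simp only [hφ.2 c hc z, h.inv c hc z]⟩
  refine ⟨_, hψ.1, hψ.2, fun z hz h0 => d0_scale pf h hψ (d0_reg h hz h0) ?_⟩
  have hu := d0_unit hz
  have h0' : ρ (((‖z‖⁻¹ : ℝ) : ℂ) • z) = 0 := by rw [h.inv _ (d0_ne hz), h0]
  generalize ((‖z‖⁻¹ : ℝ) : ℂ) • z = u at hu h0'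
  have hus : u ∈ sphere (0 : E N) 1 := by simpa using hu
  obtain ⟨n, hn, hr, hpos⟩ := mem_iUnion₂.1 (ht ⟨hus, h0'⟩)
  rw [(h5 u hr φ (hφ.1.contDiffAt (ho.mem_nhds hr))).2.2.2.1 ρ
    ((d0_si h).1.contDiffAt (ho.mem_nhds hr))]
  have h1 : (n : ℝ) ≤ A := by exact_mod_cast hA hn
  have h2 := (h7 u hr.1 h0').2.1
  simp only [mem_preimage, mem_Ioi] at hpos
  nlinarith

theorem d0_ks (pf : StmtPF) (h : Dom ρ)
    (hne : {z : E N | z ≠ 0 ∧ ρ z = 0 ∧ trH ρ ρ z = 0}.Nonempty) :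
    KS ρ {z : E N | z ≠ 0 ∧ ρ z = 0 ∧ trH ρ ρ z = 0} := by
  obtain ⟨ho, -, -, -, -, h6, -⟩ := (pf N).2.2.2 ρ h
  refine ⟨⟨fun h0 => h0.1 rfl, fun c hc z hz => ⟨smul_ne_zero hc hz.1, ?_, ?_⟩⟩, ?_, hne,
    fun z hz => hz.2.1, fun z hz => hz.2.2⟩
  · rw [h.inv c hc, hz.2.1]
  · rw [h6 ρ (d0_si h) c hc z (d0_reg h hz.1 hz.2.1), hz.2.2, mul_zero]
  · rw [← isOpen_compl_iff, isOpen_iff_mem_nhds]
    intro z hz
    have hz0 : z ≠ 0 := fun h0 => hz (Or.inl h0)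
    have h1 : ∀ᶠ y in 𝓝 z, y ≠ 0 := isOpen_compl_singleton.mem_nhds hz0
    by_cases h0 : ρ z = 0
    · have h2 : trH ρ ρ z ≠ 0 := fun h2 => hz (Or.inr ⟨hz0, h0, h2⟩)
      have hr := d0_reg h hz0 h0
      have h3 := ((d0_cont pf h (d0_si h)).continuousAt (ho.mem_nhds hr)).eventually_ne h2
      filter_upwards [h1, h3] with y hy hy'
      rintro (h4 | h4)
      · exact hy h4
      · exact hy' h4.2.2
    · have h3 := (h.smooth.continuousOn.continuousAt h1).eventually_ne h0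
      filter_upwards [h1, h3] with y hy hy'
      rintro (h4 | h4)
      · exact hy h4
      · exact hy' h4.2.1

theorem d0_chain (pf : StmtPF) (h : Dom ρ) (c : Set (Set (E N)))
    (hc : ∀ K ∈ c, KS ρ K ∧ NoPhi ρ K) (hch : IsChain (· ⊆ ·) c) (hne : c.Nonempty) :
    KS ρ (⋂₀ c) ∧ NoPhi ρ (⋂₀ c) := by
  obtain ⟨ho, -⟩ := (pf N).2.2.2 ρ h
  obtain ⟨K0, hK0⟩ := hne
  have hno : NoPhi ρ (⋂₀ c) := by
    rintro ⟨φ, hφ, hp⟩
    have hO : IsOpen (Reg ρ ∩ trH ρ φ ⁻¹' Ioi 0) :=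
      (d0_cont pf h hφ).isOpen_inter_preimage ho isOpen_Ioi
    have : Nonempty c := ⟨⟨K0, hK0⟩⟩
    have hcl : ∀ K : c, IsClosed (sphere (0 : E N) 1 ∩
        (insert 0 (K : Set (E N)) ∩ (Reg ρ ∩ trH ρ φ ⁻¹' Ioi 0)ᶜ)) := fun K =>
      isClosed_sphere.inter ((hc K K.2).1.closed.inter hO.isClosed_compl)
    obtain ⟨z, hz⟩ := IsCompact.nonempty_iInter_of_directed_nonempty_isCompact_isClosed
      (fun K : c => sphere (0 : E N) 1 ∩ (insert 0 (K : Set (E N)) ∩ (Reg ρ ∩ trH ρ φ ⁻¹' Ioi 0)ᶜ))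
      (fun K K' => by
        rcases hch.total K.2 K'.2 with h1 | h1
        · exact ⟨K, subset_rfl, inter_subset_inter_right _
            (inter_subset_inter_left _ (insert_subset_insert h1))⟩
        · exact ⟨K', inter_subset_inter_right _
            (inter_subset_inter_left _ (insert_subset_insert h1)), subset_rfl⟩)
      (fun K => by
        by_contra hK
        obtain ⟨hks, hno⟩ := hc K K.2
        refine hno ⟨φ, hφ, fun z hz => ?_⟩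
        have hz0 : z ≠ 0 := fun h0 => hks.cone.1 (h0 ▸ hz)
        refine d0_scale pf h hφ (d0_reg h hz0 (hks.bd z hz)) ?_
        by_contra hn
        exact hK ⟨_, by simpa using d0_unit hz0, Or.inr (hks.cone.2 _ (d0_ne hz0) z hz),
          fun h1 => hn h1.2⟩)
      (fun K => (isCompact_sphere 0 1).of_isClosed_subset (hcl K) inter_subset_left) hcl
    rw [mem_iInter] at hz
    have hz0 : z ≠ 0 := by
      intro h0
      have := (hz ⟨K0, hK0⟩).1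
      rw [h0] at this
      simp at this
    have hm : z ∈ ⋂₀ c := fun K hK => ((hz ⟨K, hK⟩).2.1).resolve_left hz0
    exact (hz ⟨K0, hK0⟩).2.2 ⟨d0_reg h hz0 ((hc K0 hK0).1.bd z (hm K0 hK0)), hp z hm⟩
  refine ⟨⟨⟨fun h0 => (hc K0 hK0).1.cone.1 (h0 K0 hK0),
    fun a ha z hz K hK => (hc K hK).1.cone.2 a ha z (hz K hK)⟩, ?_, d0_nonempty hno,
    fun z hz => (hc K0 hK0).1.bd z (hz K0 hK0), fun z hz => (hc K0 hK0).1.null z (hz K0 hK0)⟩, hno⟩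
  have he : insert 0 (⋂₀ c) = ⋂ K ∈ c, insert 0 K := by
    ext z
    simp only [mem_insert_iff, mem_sInter, mem_iInter]
    by_cases h0 : z = 0 <;> simp [h0]
  rw [he]
  exact isClosed_biInter fun K hK => (hc K hK).1.closed

theorem d0 (L : Lv0) : StmtD0 := by
  intro N ρ h
  by_cases hW : NoPhi ρ {z : E N | z ≠ 0 ∧ ρ z = 0 ∧ trH ρ ρ z = 0}
  · right
    obtain ⟨K, -, hK⟩ := zorn_superset_nonempty {K : Set (E N) | KS ρ K ∧ NoPhi ρ K}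
      (fun c hc hch hne => ⟨⋂₀ c, d0_chain L.pf h c hc hch hne, fun s hs => sInter_subset_of_mem hs⟩)
      _ ⟨d0_ks L.pf h (d0_nonempty hW), hW⟩
    exact ⟨K, hK.prop.1, hK.prop.2, fun K' h1 h2 h3 => h1.antisymm (hK.le_of_le ⟨h2, h3⟩ h1)⟩
  · left
    obtain ⟨φ, hφ, hp⟩ := not_not.1 hW
    exact d0_phi L.pf h hφ fun z h1 h2 h3 => hp z ⟨h1, h2, h3⟩

end Pool.Agent.MP_fcd29e_an.H82
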