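import Pool.Agent.MP_fcd29e_an.H81.Spec

/-!
Shells: the cut-off, the shell bound, and integrability against the decay of the kernel.
-/

set_option autoImplicit false

open Pool.Agent.MP_fcd29e_an.H81 MeasureTheory Complex Set Filter Topology Metric
open scoped ContDiff ComplexConjugate ENNReal NNReal

namespace Pool.Agent.MP_fcd29e_an.H82

theorem exists_kap : ∃ κ, Kap κ := by
  set k0 : ℝ → ℝ := fun s => expNegInvGlue (s - 1) * expNegInvGlue (4 - s) with hk0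
  have hsm : ContDiff ℝ ∞ k0 :=
    (expNegInvGlue.contDiff.comp (contDiff_id.sub contDiff_const)).mul
      (expNegInvGlue.contDiff.comp (contDiff_const.sub contDiff_id))
  have hnn : ∀ s, 0 ≤ k0 s := fun s => mul_nonneg (expNegInvGlue.nonneg _) (expNegInvGlue.nonneg _)
  have hpos : ∀ s, 1 < s → s < 4 → 0 < k0 s := fun s h1 h2 =>
    mul_pos (expNegInvGlue.pos_of_pos (by linarith)) (expNegInvGlue.pos_of_pos (by linarith))
  have hsupp : ∀ s, k0 s ≠ 0 → 1 < s ∧ s < 4 := by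
    intro s hs
    obtain ⟨h1, h2⟩ := mul_ne_zero_iff.1 hs
    rw [Ne, expNegInvGlue.zero_iff_nonpos] at h1 h2
    constructor <;> linarith [not_le.1 h1, not_le.1 h2]
  have heq : (fun c : ℂ => k0 (‖c‖ ^ 2) / ‖c‖ ^ 2) =
      fun c : ℂ => k0 (‖c‖ ^ 2) / max (‖c‖ ^ 2) 1 := by
    funext c
    by_cases h : k0 (‖c‖ ^ 2) = 0
    · simp [h]
    · rw [max_eq_left (hsupp _ h).1.le]
  have hcont : Continuous fun c : ℂ => k0 (‖c‖ ^ 2) / max (‖c‖ ^ 2) 1 := by
    refine (hsm.continuous.comp (continuous_norm.pow 2)).div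
      ((continuous_norm.pow 2).max continuous_const) fun c => ?_
    exact (lt_of_lt_of_le one_pos (le_max_right _ _)).ne'
  have hcs : HasCompactSupport fun c : ℂ => k0 (‖c‖ ^ 2) / max (‖c‖ ^ 2) 1 := by
    refine HasCompactSupport.intro (isCompact_closedBall (0 : ℂ) 2) fun c hc => ?_
    have h2 : 2 < ‖c‖ := by simpa using hc
    have : k0 (‖c‖ ^ 2) = 0 := by
      by_contra h
      have := (hsupp _ h).2
      nlinarith
    simp [this]
  have hI : 0 < ∫ c : ℂ, k0 (‖c‖ ^ 2) / ‖c‖ ^ 2 := by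
    rw [heq]
    refine hcont.integral_pos_of_hasCompactSupport_nonneg_nonzero hcs
      (fun c => div_nonneg (hnn _) (le_trans zero_le_one (le_max_right _ _)))
      (x := (3 / 2 : ℂ)) ?_
    have h32 : ‖(3 / 2 : ℂ)‖ = 3 / 2 := by simp
    rw [h32]
    exact (div_pos (hpos _ (by norm_num) (by norm_num))
      (lt_of_lt_of_le one_pos (le_max_right _ _))).ne'
  refine ⟨fun s => k0 s / ∫ c : ℂ, k0 (‖c‖ ^ 2) / ‖c‖ ^ 2, hsm.div_const _,
    fun s => div_nonneg (hnn s) hI.le, fun s h1 h2 => div_pos (hpos s h1 h2) hI,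
    fun s hs => hsupp s fun h => hs (by simp [h]), ?_⟩
  simp_rw [div_right_comm _ (∫ c : ℂ, k0 (‖c‖ ^ 2) / ‖c‖ ^ 2)]
  rw [integral_div, div_self hI.ne']

variable {N : ℕ}

theorem isClosed_Sh : IsClosed (Sh N) :=
  (isClosed_le continuous_const (continuous_norm.pow 2)).inter
    (isClosed_le (continuous_norm.pow 2) continuous_const)

theorem isCompact_Sh : IsCompact (Sh N) := by
  refine (isCompact_closedBall (0 : E N) 2).of_isClosed_subset isClosed_Sh fun z hz => ?_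
  have h := hz.2
  rw [mem_closedBall_zero_iff]
  nlinarith [norm_nonneg z]

theorem zero_notMem_Sh : (0 : E N) ∉ Sh N := by
  intro h
  have := h.1
  norm_num at this

theorem tsupp_kap {κ : ℝ → ℝ} (hκ : Kap κ) :
    tsupport (fun z : E N => (κ (‖z‖ ^ 2) : ℂ)) ⊆ Sh N := by
  refine closure_minimal (fun z hz => ?_) isClosed_Sh
  have h : κ (‖z‖ ^ 2) ≠ 0 := fun h => hz (by simp [h])
  exact ⟨(hκ.supp _ h).1.le, (hκ.supp _ h).2.le⟩

theorem test_kap {κ : ℝ → ℝ} (hκ : Kap κ) : Test (E0 N) (fun z => (κ (‖z‖ ^ 2) : ℂ)) := by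
  refine ⟨ofRealCLM.contDiff.comp (hκ.smooth.comp (contDiff_norm_sq ℂ)),
    isCompact_Sh.of_isClosed_subset (isClosed_tsupport _) (tsupp_kap hκ), fun z hz h0 => ?_⟩
  exact zero_notMem_Sh (h0 ▸ tsupp_kap hκ hz)

theorem scale (h0 : StmtT0) {r : ℝ} (hr : 0 < r) (G : E N → ℝ≥0∞) (d : ℤ)
    (hG : ∀ᵐ z, G (r • z) = ENNReal.ofReal (r ^ d) * G z) {S T : Set (E N)}
    (hS : MeasurableSet S) (hT : MeasurableSet T) (hST : ∀ z, r • z ∈ T ↔ z ∈ S) :
    ∫⁻ z in T, G z = ENNReal.ofReal (r ^ (2 * N) * r ^ d) * ∫⁻ z in S, G z := by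
  have h1 := (h0.1 N (r : ℂ) (by exact_mod_cast hr.ne')).2.1 (T.indicator G)
  have h2 : ∫⁻ x, T.indicator G ((r : ℂ) • x) = ENNReal.ofReal (r ^ d) * ∫⁻ z in S, G z := by
    rw [← lintegral_const_mul' _ _ ENNReal.ofReal_ne_top, ← lintegral_indicator hS]
    refine lintegral_congr_ae ?_
    filter_upwards [hG] with z hz
    rw [Complex.coe_smul]
    by_cases h : z ∈ S
    · rw [indicator_of_mem ((hST z).2 h), indicator_of_mem h, hz]
    · rw [indicator_of_notMem (fun h' => h ((hST z).1 h')), indicator_of_notMem h]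
  rw [h2, lintegral_indicator hT, Complex.norm_real, Real.norm_of_nonneg hr.le] at h1
  rw [ENNReal.ofReal_mul (by positivity), mul_assoc, h1, ← mul_assoc,
    ← ENNReal.ofReal_mul (by positivity), mul_inv_cancel₀ (by positivity), ENNReal.ofReal_one,
    one_mul]

theorem shell (h0 : StmtT0) {κ : ℝ → ℝ} (hκ : Kap κ) (d : ℤ) (K : Set (E N)) (hK : IsCompact K)
    (hK0 : (0 : E N) ∉ K) : ∃ C : ℝ≥0, ∀ G : E N → ℝ≥0∞,
      (∀ r : ℝ, 0 < r → ∀ᵐ z, G (r • z) = ENNReal.ofReal (r ^ d) * G z) →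
        ∫⁻ z in K, G z ≤ C * ∫⁻ z, ENNReal.ofReal (κ (‖z‖ ^ 2)) * G z := by
  obtain ⟨s0, hs0, hmin⟩ := (isCompact_Icc (a := (2 : ℝ)) (b := 3)).exists_isMinOn
    ⟨2, by norm_num⟩ hκ.smooth.continuous.continuousOn
  have hc : 0 < κ s0 := hκ.pos _ (by linarith [hs0.1]) (by linarith [hs0.2])
  let U : ℝ → Set (E N) := fun r => {z | 2 * r ^ 2 < ‖z‖ ^ 2 ∧ ‖z‖ ^ 2 < 3 * r ^ 2}
  have hUo : ∀ r, IsOpen (U r) := fun r =>
    (isOpen_lt continuous_const (continuous_norm.pow 2)).inter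
      (isOpen_lt (continuous_norm.pow 2) continuous_const)
  obtain ⟨t, ht⟩ := hK.elim_finite_subcover (fun r : Ioi (0 : ℝ) => U r) (fun r => hUo r) (by
    intro z hz
    have hz0 : 0 < ‖z‖ := norm_pos_iff.2 fun h => hK0 (h ▸ hz)
    refine mem_iUnion.2 ⟨⟨‖z‖ * (5 / 8), by simp only [mem_Ioi]; positivity⟩, ?_⟩
    have := pow_pos hz0 2
    constructor <;> (simp only [mul_pow]; nlinarith))
  refine ⟨∑ r ∈ t, Real.toNNReal ((r : ℝ) ^ (2 * N) * (r : ℝ) ^ d * (κ s0)⁻¹), fun G hG => ?_⟩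
  have h1 : ∫⁻ z in U 1, G z ≤
      ENNReal.ofReal (κ s0)⁻¹ * ∫⁻ z, ENNReal.ofReal (κ (‖z‖ ^ 2)) * G z := by
    rw [← lintegral_const_mul' _ _ ENNReal.ofReal_ne_top,
      ← lintegral_indicator (hUo 1).measurableSet]
    refine lintegral_mono fun z => ?_
    by_cases h : z ∈ U 1
    · rw [indicator_of_mem h, ← mul_assoc, ← ENNReal.ofReal_mul (by positivity)]
      have h2 : κ s0 ≤ κ (‖z‖ ^ 2) := hmin ⟨by linarith [h.1], by linarith [h.2]⟩
      have h3 : 1 ≤ ENNReal.ofReal ((κ s0)⁻¹ * κ (‖z‖ ^ 2)) := by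
        rw [ENNReal.one_le_ofReal, le_inv_mul_iff₀ hc, mul_one]
        exact h2
      exact le_mul_of_one_le_left' h3
    · rw [indicator_of_notMem h]
      exact bot_le
  have h2 : ∀ r : Ioi (0 : ℝ), ∫⁻ z in U r, G z ≤
      ENNReal.ofReal ((r : ℝ) ^ (2 * N) * (r : ℝ) ^ d * (κ s0)⁻¹) *
        ∫⁻ z, ENNReal.ofReal (κ (‖z‖ ^ 2)) * G z := by
    rintro ⟨r, hr⟩
    have hr' : 0 < r := hr
    rw [scale h0 hr' G d (hG r hr') (hUo 1).measurableSet (hUo r).measurableSet (fun z => ?_),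
      ENNReal.ofReal_mul (p := r ^ (2 * N) * r ^ d) (by positivity), mul_assoc (ENNReal.ofReal _)]
    · gcongr
    · have h3 : 0 < r ^ 2 := by positivity
      simp only [U, mem_ofPred_eq, norm_smul, Real.norm_of_nonneg hr'.le, mul_pow, one_pow, mul_one]
      constructor
      · rintro ⟨a, b⟩
        constructor <;> nlinarith
      · rintro ⟨a, b⟩
        constructor <;> nlinarith
  calc ∫⁻ z in K, G z ≤ ∫⁻ z in ⋃ r : t, U r, G z := by
        refine lintegral_mono_set fun z hz => ?_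
        obtain ⟨r, hr, h⟩ := mem_iUnion₂.1 (ht hz)
        exact mem_iUnion.2 ⟨⟨r, hr⟩, h⟩
    _ ≤ ∑' r : t, ∫⁻ z in U r, G z := lintegral_iUnion_le _ _
    _ = ∑ r ∈ t, ∫⁻ z in U r, G z := Finset.tsum_subtype t fun r => ∫⁻ z in U r, G z
    _ ≤ _ := by
        rw [ENNReal.ofNNReal_finsetSum, Finset.sum_mul]
        exact Finset.sum_le_sum fun r _ => h2 r

theorem norm_hom {r : ℝ} (hr : 0 < r) (a b : ℤ) (w : ℂ) :
    ‖(r : ℂ) ^ a * conj (r : ℂ) ^ b * w‖ = r ^ (a + b) * ‖w‖ := by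
  rw [norm_mul, norm_mul, norm_zpow, norm_zpow, RCLike.norm_conj, Complex.norm_real,
    Real.norm_of_nonneg hr.le, zpow_add₀ hr.ne']

theorem l2_of (h0 : StmtT0) {κ : ℝ → ℝ} (hκ : Kap κ) (a b : ℤ) (g : E N → ℂ)
    (hg : AH (E0 N) a b g) (hm : AEStronglyMeasurable g volume)
    (hfin : ∫⁻ z, ENNReal.ofReal (κ (‖z‖ ^ 2) * ‖g z‖ ^ 2) < ⊤) : L2 (E0 N) g := by
  intro K hK hK0
  have hKE : E0 N ∩ K = K := inter_eq_right.2 fun z hz h => hK0 (h ▸ hz)
  rw [hKE, memLp_two_iff_integrable_sq_norm hm.restrict]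
  refine ⟨(hm.norm.pow 2).restrict, ?_⟩
  obtain ⟨C, hC⟩ := shell h0 hκ (2 * (a + b)) K hK hK0
  have h1 := hC ((E0 N).indicator fun z => ENNReal.ofReal (‖g z‖ ^ 2)) fun r hr => by
    filter_upwards [hg r (by exact_mod_cast hr.ne')] with z hz
    by_cases h : z ∈ E0 N
    · have h' : r • z ∈ E0 N := smul_ne_zero hr.ne' h
      rw [indicator_of_mem h, indicator_of_mem h', ← Complex.coe_smul, hz h, norm_hom hr,
        ← ENNReal.ofReal_mul (by positivity), mul_pow, mul_comm (2 : ℤ), zpow_mul]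
      rfl
    · have h' : z = 0 := by simpa using h
      subst h'
      simp
  rw [hasFiniteIntegral_iff_ofReal (Eventually.of_forall fun z => by positivity)]
  calc ∫⁻ z in K, ENNReal.ofReal (‖g z‖ ^ 2)
      = ∫⁻ z in K, (E0 N).indicator (fun z => ENNReal.ofReal (‖g z‖ ^ 2)) z := by
        refine setLIntegral_congr_fun hK.measurableSet fun z hz => ?_
        have h : z ∈ E0 N := fun h => hK0 (h ▸ hz)
        rw [indicator_of_mem h]
    _ ≤ _ := h1
    _ < ⊤ := by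
        refine ENNReal.mul_lt_top ENNReal.coe_lt_top (lt_of_le_of_lt (lintegral_mono fun z => ?_) hfin)
        rw [ENNReal.ofReal_mul (hκ.nonneg _)]
        gcongr
        exact indicator_le_self' (fun _ _ => bot_le) z

theorem di_of (h0 : StmtT0) (h1 : StmtT1) (a b : ℤ) (g : E N → ℂ) (hL : L2 (E0 N) g)
    (hg : Hom (E0 N) a b g) (hlo : -(2 * N : ℤ) < a + b) (hhi : a + b < -1) : DI g := by
  have hN : 1 ≤ N := by omega
  have : Nonempty (Fin N) := ⟨⟨0, hN⟩⟩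
  have : Nontrivial (E N) := Module.nontrivial_of_finrank_pos (R := ℝ) (by rw [finrank_E]; omega)
  have hae : ∀ᵐ z : E N, z ∈ E0 N := compl_mem_ae_iff.2 (measure_singleton 0)
  have hres : (volume : Measure (E N)).restrict (E0 N) = volume :=
    Measure.restrict_eq_self_of_ae_mem hae
  have hm : AEStronglyMeasurable g volume := by
    have := ((h1 N (E0 N) isOpen_E0 (by simp)).1 g hL).2.1
    rwa [hres] at this
  have hcont : Continuous fun y : E N => (((1 + ‖y‖) ^ (2 * N - 1) : ℝ) : ℂ) := by fun_prop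
  refine ⟨(hm.aemeasurable.div hcont.measurable.aemeasurable).aestronglyMeasurable, ?_⟩
  let S : ℤ → Set (E N) := fun i => {y | ‖y‖ ∈ Ico ((2 : ℝ) ^ i) (2 ^ (i + 1))}
  have hSm : ∀ i, MeasurableSet (S i) := fun i => measurable_norm measurableSet_Ico
  have hI0 : ∫⁻ z in S 0, ‖g z‖ₑ < ⊤ := by
    have hK : IsCompact (Sh N) := isCompact_Sh
    have h2 := hL _ hK zero_notMem_Sh
    rw [inter_eq_right.2 (show Sh N ⊆ E0 N from fun z hz h => zero_notMem_Sh (h ▸ hz))] at h2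
    have : IsFiniteMeasure ((volume : Measure (E N)).restrict (Sh N)) :=
      ⟨by simpa using hK.measure_lt_top⟩
    refine lt_of_le_of_lt (lintegral_mono_set fun z hz => ?_) (h2.integrable one_le_two).2
    obtain ⟨h3, h4⟩ := hz
    norm_num at h3 h4
    constructor <;> nlinarith [norm_nonneg z]
  have hsc : ∀ i : ℤ, ∫⁻ z in S i, ‖g z‖ₑ =
      ENNReal.ofReal (((2 : ℝ) ^ i) ^ (2 * N) * ((2 : ℝ) ^ i) ^ (a + b)) * ∫⁻ z in S 0, ‖g z‖ₑ := by
    intro i
    have hr : (0 : ℝ) < 2 ^ i := by positivity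
    refine scale h0 hr _ _ ?_ (hSm 0) (hSm i) fun z => ?_
    · filter_upwards [hae] with z hz
      rw [← Complex.coe_smul, hg _ (by exact_mod_cast hr.ne') z hz, ← ofReal_norm,
        norm_hom hr, ENNReal.ofReal_mul (by positivity), ofReal_norm]
    · simp only [S, mem_ofPred_eq, mem_Ico, norm_smul, Real.norm_of_nonneg hr.le, zpow_zero,
        zpow_add_one₀ (two_ne_zero (α := ℝ))]
      constructor
      · rintro ⟨h3, h4⟩
        constructor <;> nlinarith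
      · rintro ⟨h3, h4⟩
        constructor <;> nlinarith
  have hb : ∀ i : ℤ, ∫⁻ y in S i, ‖g y / (((1 + ‖y‖) ^ (2 * N - 1) : ℝ) : ℂ)‖ₑ ≤
      2⁻¹ ^ i.natAbs * ∫⁻ z in S 0, ‖g z‖ₑ := by
    intro i
    have hr : (0 : ℝ) < 2 ^ i := by positivity
    have h2 : ∫⁻ y in S i, ‖g y / (((1 + ‖y‖) ^ (2 * N - 1) : ℝ) : ℂ)‖ₑ ≤
        ENNReal.ofReal ((max 1 ((2 : ℝ) ^ i)) ^ (2 * N - 1))⁻¹ * ∫⁻ z in S i, ‖g z‖ₑ := by
      rw [← lintegral_const_mul' _ _ ENNReal.ofReal_ne_top]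
      refine setLIntegral_mono' (hSm i) fun y hy => ?_
      rw [← ofReal_norm, ← ofReal_norm, ← ENNReal.ofReal_mul (by positivity),
        norm_div, Complex.norm_real, Real.norm_of_nonneg (by positivity), inv_mul_eq_div]
      have h3 : max 1 ((2 : ℝ) ^ i) ≤ 1 + ‖y‖ :=
        max_le (by linarith [norm_nonneg y]) (by linarith [hy.1])
      gcongr
    refine h2.trans ?_
    rw [hsc, ← mul_assoc, ← ENNReal.ofReal_mul (by positivity)]
    gcongr
    have h4 : (2⁻¹ : ℝ≥0∞) ^ i.natAbs = ENNReal.ofReal ((2 : ℝ) ^ (-(i.natAbs : ℤ))) := by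
      rw [zpow_neg, zpow_natCast, ← inv_pow, ENNReal.ofReal_pow (by norm_num),
        ENNReal.ofReal_inv_of_pos (by norm_num)]
      simp
    rw [h4]
    refine ENNReal.ofReal_le_ofReal ?_
    rcases le_total 0 i with hi | hi
    · rw [max_eq_right (one_le_zpow₀ one_le_two hi), ← zpow_natCast, ← zpow_natCast, ← zpow_mul,
        ← zpow_mul, ← zpow_mul, ← zpow_neg, ← zpow_add₀ two_ne_zero, ← zpow_add₀ two_ne_zero]
      refine zpow_le_zpow_right₀ one_le_two ?_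
      rw [Int.natAbs_of_nonneg hi, Nat.cast_sub (by omega)]
      push_cast
      nlinarith
    · rw [max_eq_left (zpow_le_one_of_nonpos₀ one_le_two hi), one_pow, inv_one, one_mul,
        ← zpow_natCast, ← zpow_mul, ← zpow_mul, ← zpow_add₀ two_ne_zero]
      refine zpow_le_zpow_right₀ one_le_two ?_
      have h5 : (i.natAbs : ℤ) = -i := by omega
      rw [h5]
      push_cast
      nlinarith
  rw [HasFiniteIntegral, ← hres]
  calc ∫⁻ y in E0 N, ‖g y / (((1 + ‖y‖) ^ (2 * N - 1) : ℝ) : ℂ)‖ₑ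
      ≤ ∫⁻ y in ⋃ n : ℕ, (S n ∪ S (-n)), ‖g y / (((1 + ‖y‖) ^ (2 * N - 1) : ℝ) : ℂ)‖ₑ := by
        refine lintegral_mono_set fun y hy => ?_
        obtain ⟨i, hi⟩ := exists_mem_Ico_zpow (norm_pos_iff.2 hy) (one_lt_two (α := ℝ))
        refine mem_iUnion.2 ⟨i.natAbs, ?_⟩
        rcases Int.natAbs_eq i with h | h
        · exact Or.inl (by rw [← h]; exact hi)
        · exact Or.inr (by rw [← h]; exact hi)
    _ ≤ ∑' n : ℕ, ∫⁻ y in S n ∪ S (-n), ‖g y / (((1 + ‖y‖) ^ (2 * N - 1) : ℝ) : ℂ)‖ₑ :=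
        lintegral_iUnion_le _ _
    _ ≤ ∑' n : ℕ, 2⁻¹ ^ n * (2 * ∫⁻ z in S 0, ‖g z‖ₑ) := by
        refine ENNReal.tsum_le_tsum fun n => (lintegral_union_le _ _ _).trans ?_
        have h2 := hb n
        have h3 := hb (-n)
        rw [Int.natAbs_neg] at h3
        rw [Int.natAbs_natCast] at h2 h3
        rw [two_mul (∫⁻ z in S 0, ‖g z‖ₑ), mul_add]
        exact add_le_add h2 h3
    _ < ⊤ := by
        rw [ENNReal.tsum_mul_right, ENNReal.tsum_geometric]
        refine ENNReal.mul_lt_top ?_ (ENNReal.mul_lt_top (by simp) hI0)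
        simp

theorem loc_of (g : E N → ℂ) (hg : DI g) : LocallyIntegrable g := by
  have hcont : Continuous fun y : E N => (((1 + ‖y‖) ^ (2 * N - 1) : ℝ) : ℂ) := by fun_prop
  have h := (Integrable.locallyIntegrable hg).mul_continuous hcont
  have he : (fun y : E N => g y / (((1 + ‖y‖) ^ (2 * N - 1) : ℝ) : ℂ) *
      (((1 + ‖y‖) ^ (2 * N - 1) : ℝ) : ℂ)) = g := by
    funext y
    refine div_mul_cancel₀ _ ?_
    have : (0 : ℝ) < (1 + ‖y‖) ^ (2 * N - 1) := by positivity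
    exact_mod_cast this.ne'
  rwa [he] at h

theorem t3 (h0 : StmtT0) (h1 : StmtT1) : StmtT3 :=
  ⟨exists_kap, fun _ => ⟨fun _ hκ => ⟨test_kap hκ, tsupp_kap hκ, isCompact_Sh, zero_notMem_Sh,
    shell h0 hκ, l2_of h0 hκ⟩, di_of h0 h1, loc_of⟩⟩

end Pool.Agent.MP_fcd29e_an.H82
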